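import Mathlib

/-!
# T2: hyperbolic space, lattices, virtual largeness, totally geodesic hypersurfaces
(the definitions of the final statement)
-/

namespace H77T2

open MeasureTheory

/-- The Minkowski form on `ℝ^{n+1}`. -/
def mink (n : ℕ) (v w : Fin (n + 1) → ℝ) : ℝ := v 0 * w 0 - ∑ i : Fin n, v i.succ * w i.succ

/-- The hyperboloid model of hyperbolic `n`-space. -/
def Hyp (n : ℕ) : Set (Fin (n + 1) → ℝ) := {v | mink n v v = 1 ∧ 0 < v 0}

theorem mink_neg_neg (n : ℕ) (v : Fin (n + 1) → ℝ) : mink n (-v) (-v) = mink n v v := by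
  simp [mink]

/-- The isometry group of `H^n`: the linear automorphisms of `ℝ^{n+1}` which preserve the
Minkowski form and the sheet `Hyp n`. -/
def IsomHyp (n : ℕ) : Subgroup (GL (Fin (n + 1)) ℝ) where
  carrier := {M | (∀ v w, mink n (M.1.mulVec v) (M.1.mulVec w) = mink n v w) ∧
    ∀ v ∈ Hyp n, M.1.mulVec v ∈ Hyp n}
  mul_mem' := by
    intro a b ha hb
    refine ⟨fun v w => ?_, fun v hv => ?_⟩
    · simp only [Units.val_mul, ← Matrix.mulVec_mulVec]
      rw [ha.1, hb.1]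
    · simp only [Units.val_mul, ← Matrix.mulVec_mulVec]
      exact ha.2 _ (hb.2 _ hv)
  one_mem' := by
    refine ⟨fun v w => by simp, fun v hv => by simpa using hv⟩
  inv_mem' := by
    intro a ha
    have h1 : ∀ v, a.1.mulVec ((a⁻¹).1.mulVec v) = v := by
      intro v
      rw [Matrix.mulVec_mulVec, ← Units.val_mul, mul_inv_cancel]
      simp
    have h2 : ∀ v w, mink n ((a⁻¹).1.mulVec v) ((a⁻¹).1.mulVec w) = mink n v w := by
      intro v w
      rw [← ha.1, h1, h1]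
    refine ⟨h2, fun v hv => ?_⟩
    have h3 : mink n ((a⁻¹).1.mulVec v) ((a⁻¹).1.mulVec v) = 1 := by rw [h2]; exact hv.1
    refine ⟨h3, ?_⟩
    by_contra hneg
    have h4 : ((a⁻¹).1.mulVec v) 0 ≠ 0 := by
      intro h0
      have : mink n ((a⁻¹).1.mulVec v) ((a⁻¹).1.mulVec v) ≤ 0 := by
        unfold mink
        rw [h0]
        have : 0 ≤ ∑ i : Fin n, ((a⁻¹).1.mulVec v) i.succ * ((a⁻¹).1.mulVec v) i.succ :=
          Finset.sum_nonneg fun i _ => mul_self_nonneg _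
        linarith
      linarith
    have h5 : -((a⁻¹).1.mulVec v) ∈ Hyp n := by
      refine ⟨by rw [mink_neg_neg]; exact h3, ?_⟩
      have : ((a⁻¹).1.mulVec v) 0 < 0 := lt_of_le_of_ne (not_lt.1 hneg) h4
      simpa using this
    have h6 := ha.2 _ h5
    rw [Matrix.mulVec_neg, h1] at h6
    have h7 := h6.2
    have h8 := hv.2
    simp only [Pi.neg_apply] at h7
    linarith

/-- The point of the hyperboloid with Beltrami–Klein coordinates `w`, `|w| < 1`. -/
noncomputable def kleinPt (n : ℕ) (w : Fin n → ℝ) : Fin (n + 1) → ℝ :=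
  (Real.sqrt (1 - ∑ i, w i ^ 2))⁻¹ • (Fin.cons 1 w : Fin (n + 1) → ℝ)

/-- The hyperbolic volume on `Hyp n`, given by the volume element
`(1 - |w|^2)^{-(n+1)/2} dw` of the Beltrami–Klein model. -/
noncomputable def hypVol (n : ℕ) : Measure (Fin (n + 1) → ℝ) :=
  Measure.map (kleinPt n)
    (((volume : Measure (Fin n → ℝ)).restrict {w | ∑ i, w i ^ 2 < 1}).withDensity
      fun w => ENNReal.ofReal ((1 - ∑ i, w i ^ 2) ^ (-((n : ℝ) + 1) / 2)))

/-- `Γ` is a lattice in `Isom(H^n)`: it is discrete and `H^n/Γ` has finite volume. -/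
def IsLattice (n : ℕ) (Γ : Subgroup (GL (Fin (n + 1)) ℝ)) : Prop :=
  Γ ≤ IsomHyp n ∧ DiscreteTopology Γ ∧
    ∃ F : Set (Fin (n + 1) → ℝ), F ⊆ Hyp n ∧ MeasurableSet F ∧ hypVol n F < ⊤ ∧
      ∀ v ∈ Hyp n, ∃ γ ∈ Γ, γ.1.mulVec v ∈ F

/-- torsion-free subgroups. -/
def TorsionFree {G : Type*} [Group G] (Γ : Subgroup G) : Prop :=
  ∀ γ ∈ Γ, ∀ k : ℕ, 0 < k → γ ^ k = 1 → γ = 1

/-- A group is virtually large if a subgroup of finite index maps onto a non-abelian free
group. -/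
def VirtuallyLarge (G : Type) [Group G] : Prop :=
  ∃ Δ : Subgroup G, Δ.FiniteIndex ∧
    ∃ ι : Type, Nontrivial ι ∧ ∃ φ : Δ →* FreeGroup ι, Function.Surjective φ

/-- The standard totally geodesic embedding `H^m → H^{m+1}`. -/
def incl (m : ℕ) (v : Fin (m + 1) → ℝ) : Fin (m + 2) → ℝ := Fin.snoc (α := fun _ => ℝ) v 0

/-- For `g ∈ Isom(H^{m+1})` let `H = g (H^m)`, a totally geodesic hyperplane of `H^{m+1}`; every
such hyperplane is of this form. `hstab m Γ g` is the group of isometries of `H ≅ H^m` which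
are induced by the elements of the stabiliser `Γ_H` of `H` in `Γ`. -/
def hstab (m : ℕ) (Γ : Subgroup (GL (Fin (m + 2)) ℝ)) (g : GL (Fin (m + 2)) ℝ) :
    Subgroup (GL (Fin (m + 1)) ℝ) where
  carrier := {A | A ∈ IsomHyp m ∧ ∃ γ ∈ Γ, ∀ v ∈ Hyp m,
    γ.1.mulVec (g.1.mulVec (incl m v)) = g.1.mulVec (incl m (A.1.mulVec v))}
  mul_mem' := by
    rintro a b ⟨ha, γ, hγ, h1⟩ ⟨hb, δ, hδ, h2⟩
    refine ⟨mul_mem ha hb, γ * δ, mul_mem hγ hδ, fun v hv => ?_⟩
    rw [Units.val_mul, ← Matrix.mulVec_mulVec, h2 v hv, h1 _ (hb.2 _ hv), Units.val_mul,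
      ← Matrix.mulVec_mulVec]
  one_mem' := ⟨one_mem _, 1, one_mem _, fun v _ => by simp⟩
  inv_mem' := by
    rintro a ⟨ha, γ, hγ, h1⟩
    refine ⟨inv_mem ha, γ⁻¹, inv_mem hγ, fun v hv => ?_⟩
    have h2 := h1 _ ((inv_mem ha).2 _ hv)
    have h3 : a.1.mulVec ((a⁻¹).1.mulVec v) = v := by
      rw [Matrix.mulVec_mulVec, ← Units.val_mul, mul_inv_cancel]
      simp
    rw [h3] at h2
    rw [← h2, Matrix.mulVec_mulVec, ← Units.val_mul, inv_mul_cancel]
    simp

/-- The manifold `H^{m+1}/Γ` has a closed totally geodesic submanifold of codimension 1: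
there is a totally geodesic hyperplane `H` whose stabiliser in `Γ` is a lattice in `Isom(H)`. -/
def HasGeodesicHypersurface (m : ℕ) (Γ : Subgroup (GL (Fin (m + 2)) ℝ)) : Prop :=
  ∃ g ∈ IsomHyp (m + 1), IsLattice m (hstab m Γ g)

/-- Q1: for every finite-volume hyperbolic manifold `M = H^n/Γ` of dimension `n = m + 1 ≥ 4`,
`Γ` is virtually large iff `M` has a closed totally geodesic submanifold of codimension 1. -/
def Question : Prop :=
  ∀ m : ℕ, 3 ≤ m → ∀ Γ : Subgroup (GL (Fin (m + 2)) ℝ),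
    IsLattice (m + 1) Γ → TorsionFree Γ →
      (VirtuallyLarge Γ ↔ HasGeodesicHypersurface m Γ)

end H77T2
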