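import Pool.Agent.Helper77.T2.Order

/-!
# T2: the order `O` as a subring of `A5 ℚ`, and the elements `w`, `x` normalising it
-/

namespace H77T2

open L5 A5

theorem zs_eq (n : ℤ) (a : A5 ℤ) : zs n a = (n : A5 ℤ) * a := by
  ext <;> simp [zs]

theorem sum16_eq (f : Fin 16 → A5 ℤ) : sum16 f = ∑ i, f i := by
  simp only [Fin.sum_univ_succ, Fin.sum_univ_zero, add_zero]
  rw [sum16]
  have : List.finRange 16 = [0, 1, 2, 3, 4, 5, 6, 7, 8, 9, 10, 11, 12, 13, 14, 15] := by decide
  rw [this]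
  simp only [List.foldl_cons, List.foldl_nil, zero_add]
  simp only [add_assoc]
  rfl

theorem lin_eq (n : Fin 16 → ℤ) : lin n = ∑ i, (n i : A5 ℤ) * bz i := by
  rw [lin, sum16_eq]
  exact Finset.sum_congr rfl fun i _ => zs_eq _ _

theorem lin_add (n m : Fin 16 → ℤ) : lin (n + m) = lin n + lin m := by
  simp only [lin_eq, Pi.add_apply, Int.cast_add, add_mul, Finset.sum_add_distrib]

theorem lin_neg (n : Fin 16 → ℤ) : lin (-n) = -lin n := by
  simp only [lin_eq, Pi.neg_apply, Int.cast_neg, neg_mul, Finset.sum_neg_distrib]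

theorem lin_zero : lin 0 = 0 := by
  simp [lin_eq]

theorem lin_smul (c : ℤ) (n : Fin 16 → ℤ) : lin (c • n) = (c : A5 ℤ) * lin n := by
  simp only [lin_eq, Pi.smul_apply, smul_eq_mul, Int.cast_mul, Finset.mul_sum, mul_assoc]

theorem lin_sum {ι : Type*} (s : Finset ι) (f : ι → Fin 16 → ℤ) :
    lin (∑ i ∈ s, f i) = ∑ i ∈ s, lin (f i) := by
  classical
  induction s using Finset.induction_on with
  | empty => simp [lin_zero]
  | insert a s ha ih => rw [Finset.sum_insert ha, Finset.sum_insert ha, lin_add, ih]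

/-- coordinates of the product. -/
def scm (n m : Fin 16 → ℤ) : Fin 16 → ℤ := ∑ i, ∑ j, (n i * m j) • sc i j

theorem lin_mul_lin (n m : Fin 16 → ℤ) : lin n * lin m = 45 * lin (scm n m) := by
  have h : ∀ i j, ((n i : A5 ℤ) * bz i) * ((m j : A5 ℤ) * bz j) =
      45 * lin ((n i * m j) • sc i j) := by
    intro i j
    rw [lin_smul]
    have h1 := bz_mul i j
    rw [zs_eq] at h1
    calc ((n i : A5 ℤ) * bz i) * ((m j : A5 ℤ) * bz j)
        = (n i : A5 ℤ) * (bz i * (m j : A5 ℤ)) * bz j := by noncomm_ring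
      _ = (n i : A5 ℤ) * ((m j : A5 ℤ) * bz i) * bz j := by rw [(Int.cast_commute (m j) (bz i)).eq]
      _ = (n i : A5 ℤ) * (m j : A5 ℤ) * (bz i * bz j) := by noncomm_ring
      _ = (n i : A5 ℤ) * (m j : A5 ℤ) * (45 * lin (sc i j)) := by rw [h1]; norm_num
      _ = 45 * ((n i : A5 ℤ) * (m j : A5 ℤ) * lin (sc i j)) := by
          have : (n i : A5 ℤ) * (m j : A5 ℤ) * 45 = 45 * ((n i : A5 ℤ) * (m j : A5 ℤ)) := by
            have h45 : (45 : A5 ℤ) = ((45 : ℤ) : A5 ℤ) := by norm_num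
            rw [h45, ← Int.cast_mul]
            exact (Int.cast_commute _ _).eq
          rw [← mul_assoc, this, mul_assoc]
      _ = 45 * (((n i * m j : ℤ) : A5 ℤ) * lin (sc i j)) := by rw [Int.cast_mul]
  rw [lin_eq n, lin_eq m, scm, Finset.sum_mul_sum, lin_sum, Finset.mul_sum]
  refine Finset.sum_congr rfl fun i _ => ?_
  rw [lin_sum, Finset.mul_sum]
  exact Finset.sum_congr rfl fun j _ => h i j

/-- `A5 ℤ → A5 ℚ`. -/
def toQ : A5 ℤ →+* A5 ℚ := A5.map (Int.castRingHom ℚ)

theorem toQ_ofNat (n : ℕ) : toQ (n : A5 ℤ) = (n : A5 ℚ) := map_natCast _ _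

theorem toQ_injective : Function.Injective toQ := by
  intro a b h
  have h0 := congrArg A5.l0 h
  have h1 := congrArg A5.l1 h
  have h2 := congrArg A5.l2 h
  have h3 := congrArg A5.l3 h
  have key : ∀ p q : L5 ℤ, L5.map (Int.castRingHom ℚ) p = L5.map (Int.castRingHom ℚ) q → p = q := by
    intro p q hpq
    ext
    · exact Int.cast_injective (α := ℚ) (congrArg L5.c0 hpq)
    · exact Int.cast_injective (α := ℚ) (congrArg L5.c1 hpq)
    · exact Int.cast_injective (α := ℚ) (congrArg L5.c2 hpq)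
    · exact Int.cast_injective (α := ℚ) (congrArg L5.c3 hpq)
  ext1
  · exact key _ _ h0
  · exact key _ _ h1
  · exact key _ _ h2
  · exact key _ _ h3

/-- scalars of `A5 ℚ`. -/
theorem ratCast_mul (r : ℚ) (a : A5 ℚ) : A5.of r * a =
    ⟨⟨r * a.l0.c0, r * a.l0.c1, r * a.l0.c2, r * a.l0.c3⟩,
      ⟨r * a.l1.c0, r * a.l1.c1, r * a.l1.c2, r * a.l1.c3⟩,
      ⟨r * a.l2.c0, r * a.l2.c1, r * a.l2.c2, r * a.l2.c3⟩,
      ⟨r * a.l3.c0, r * a.l3.c1, r * a.l3.c2, r * a.l3.c3⟩⟩ := by
  ext <;> simp [A5.of, L5.of]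

theorem of_comm {R : Type*} [CommRing R] (r : R) (a : A5 R) : A5.of r * a = a * A5.of r := by
  ext <;> simp [A5.of, L5.of] <;> ring

theorem of_mul' {R : Type*} [CommRing R] (r s : R) : A5.of r * A5.of s = A5.of (r * s) := by
  ext <;> simp [A5.of, L5.of]

theorem of_one' {R : Type*} [CommRing R] : A5.of (1 : R) = 1 := by
  ext <;> simp [A5.of, L5.of]

theorem of_natCast (n : ℕ) : A5.of (n : ℚ) = (n : A5 ℚ) := by
  ext <;> simp [A5.of, L5.of]

theorem cancel45 {a b : A5 ℚ} (h : 45 * a = 45 * b) : a = b := by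
  have h1 : (45 : A5 ℚ) = A5.of (45 : ℚ) := by
    have := of_natCast 45
    norm_num at this
    exact this.symm
  have h2 : A5.of (1 / 45 : ℚ) * (45 * a) = A5.of (1 / 45 : ℚ) * (45 * b) := by rw [h]
  rw [h1, ← mul_assoc, ← mul_assoc, of_mul'] at h2
  norm_num at h2
  rwa [of_one', one_mul, one_mul] at h2

/-- The maximal order of `A5 ℚ`. -/
def O : Subring (A5 ℚ) where
  carrier := {y | ∃ n : Fin 16 → ℤ, 45 * y = toQ (lin n)}
  mul_mem' := by
    rintro a b ⟨n, hn⟩ ⟨m, hm⟩
    refine ⟨scm n m, ?_⟩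
    apply cancel45
    have h := congrArg toQ (lin_mul_lin n m)
    rw [map_mul, map_mul, ← hn, ← hm, map_ofNat] at h
    rw [← h]
    have h45 : (45 : A5 ℚ) = ((45 : ℕ) : A5 ℚ) := by norm_num
    rw [h45]
    have hc : a * ((45 : ℕ) : A5 ℚ) = ((45 : ℕ) : A5 ℚ) * a := ((Nat.cast_commute 45 a).eq).symm
    calc ((45 : ℕ) : A5 ℚ) * (((45 : ℕ) : A5 ℚ) * (a * b))
        = ((45 : ℕ) : A5 ℚ) * ((((45 : ℕ) : A5 ℚ) * a) * b) := by simp only [mul_assoc]
      _ = ((45 : ℕ) : A5 ℚ) * ((a * ((45 : ℕ) : A5 ℚ)) * b) := by rw [hc]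
      _ = _ := by simp only [mul_assoc]
  one_mem' := ⟨onec, by rw [lin_one, mul_one, map_ofNat]⟩
  add_mem' := by
    rintro a b ⟨n, hn⟩ ⟨m, hm⟩
    exact ⟨n + m, by rw [lin_add, map_add, mul_add, hn, hm]⟩
  zero_mem' := ⟨0, by rw [lin_zero, map_zero, mul_zero]⟩
  neg_mem' := by
    rintro a ⟨n, hn⟩
    exact ⟨-n, by rw [lin_neg, map_neg, mul_neg, hn]⟩

theorem mem_O {y : A5 ℚ} : y ∈ O ↔ ∃ n : Fin 16 → ℤ, 45 * y = toQ (lin n) := Iff.rfl

/-- the element of `O` with given coordinates. -/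
def oe (n : Fin 16 → ℤ) : A5 ℚ := A5.of (1 / 45 : ℚ) * toQ (lin n)

theorem oe_eq (n : Fin 16 → ℤ) : 45 * oe n = toQ (lin n) := by
  have h1 : (45 : A5 ℚ) = A5.of (45 : ℚ) := by
    have := of_natCast 45
    norm_num at this
    exact this.symm
  rw [oe, h1, ← mul_assoc, of_mul']
  norm_num
  rw [of_one', one_mul]

theorem oe_mem (n : Fin 16 → ℤ) : oe n ∈ O := ⟨n, oe_eq n⟩

theorem exists_oe {y : A5 ℚ} (h : y ∈ O) : ∃ n, y = oe n := by
  obtain ⟨n, hn⟩ := h
  exact ⟨n, cancel45 (by rw [hn, oe_eq])⟩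

/-- table of coordinates of the special elements (4 bits, offset 8). -/
def elN : ℕ := 29040812475913975203818456640329417814746974390494339617930786918191078089848123117903000514896406685254346881960243041775616794024102759833223662905082899184587383933447452103733438780206358044786367983031999517117023767375446265390304498005718335170525876899083035858126677923906045366318861058712163609745053270039883688727046949967689170847898

/-- coordinates of the special elements: 0 `w`, 1 `w^2/2`, 2 its inverse, 3 `x w x⁻¹ w⁻¹`,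
4 its inverse, 5 `z`, 6 `z⁻¹`, 7 `k0`, 8 `k0⁻¹`, 9 `k4`, 10 `k4⁻¹`, 11 `v2 = k2 w⁻¹`,
12 `v2⁻¹`, 13 `v3 = k3 w⁻¹`, 14 `v3⁻¹`, 15 `k2`, 16 `k3`, 17 `x`. -/
def ec (i : ℕ) (k : Fin 16) : ℤ := dec elN 4 8 (16 * i + k)

/-- table of `w b_i w⁻¹`. -/
def awN : ℕ := 95874052689235080724465531538995769951060872642029593011652087641356205850417126999643612398500985824752521085301235242656088590079860943207832553643918164727920259788670612610605308887612121623769960172743177388039568842146040428343690741813115668998110729094966340874140860073330606440246746551441117775785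
/-- table of `x b_i x⁻¹`. -/
def axN : ℕ := 95920856185207876351475875287901940989769344368698344722007823975643008996073148923371465315765499190558044627600308153924285074126796005751053365214867074096060716775370142622019031958865229415234579494432046667821791231112369565798672938042928782796334228381025197371357251840666737733308607816644820506760
/-- coordinates of `w b_i w⁻¹`. -/
def aw (i k : Fin 16) : ℤ := dec awN 4 8 (16 * i + k)
/-- coordinates of `x b_i x⁻¹`. -/
def ax (i k : Fin 16) : ℤ := dec axN 4 8 (16 * i + k)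


end H77T2
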