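import Pool.Agent.Helper77.T2.Alg

/-!
# T2: the real algebra, its positive involution and the quadratic space `V = ℝ^6`
-/

namespace H77T2

open L5 A5

/-- `√54`. -/
noncomputable def s54 : ℝ := Real.sqrt 54

theorem s54_sq : s54 * s54 = 54 := Real.mul_self_sqrt (by norm_num)

theorem s54_pos : 0 < s54 := Real.sqrt_pos.2 (by norm_num)

/-- the positive involution: `z* = z⁻¹`, `x* = √54 x⁻¹`. -/
noncomputable def st (g : A5 ℝ) : A5 ℝ :=
  ⟨cj g.l0, -(L5.of s54 * sg (sg (sg g.l3))), -g.l2, -(L5.of (s54 / 54) * sg g.l1)⟩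

@[simp] theorem st_l0 (g : A5 ℝ) : (st g).l0 = cj g.l0 := rfl
@[simp] theorem st_l1 (g : A5 ℝ) : (st g).l1 = -(L5.of s54 * sg (sg (sg g.l3))) := rfl
@[simp] theorem st_l2 (g : A5 ℝ) : (st g).l2 = -g.l2 := rfl
@[simp] theorem st_l3 (g : A5 ℝ) : (st g).l3 = -(L5.of (s54 / 54) * sg g.l1) := rfl

theorem sg_of {R : Type*} [CommRing R] (r : R) : sg (L5.of r) = L5.of r := by
  ext <;> simp [L5.of]

theorem of_mul_of {R : Type*} [CommRing R] (r t : R) : L5.of r * L5.of t = L5.of (r * t) := by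
  ext <;> simp [L5.of]

theorem of_54 : (L5.of (54 : ℝ)) = 54 := by
  ext <;> simp [L5.of] <;> rfl

theorem of_s54_mul : L5.of s54 * L5.of s54 = 54 := by
  rw [of_mul_of, s54_sq, of_54]

theorem of_s54_inv : L5.of s54 * L5.of (s54 / 54) = 1 := by
  rw [of_mul_of, mul_div_assoc', s54_sq, div_self (by norm_num)]; rfl

theorem of_54_mul : 54 * L5.of (s54 / 54) = L5.of s54 := by
  rw [← of_54, of_mul_of, mul_div_cancel₀ _ (by norm_num)]

theorem of_54_mul_mul : 54 * L5.of (s54 / 54) * L5.of (s54 / 54) = 1 := by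
  rw [of_54_mul, of_s54_inv]

theorem st_mul (g h : A5 ℝ) : st (g * h) = st h * st g := by
  have h1 := of_s54_mul
  have h2 := of_s54_inv
  have h3 := of_54_mul
  have h4 := of_54_mul_mul
  ext1
  · simp only [st_l0, st_l1, st_l2, st_l3, mul_l0, cj, map_add, map_sub,
      map_mul, map_neg, map_ofNat, sg_of, sg_sg_sg_sg]
    linear_combination (54 * sg (sg (sg h.l3)) * sg (sg g.l1)) * h2 +
      (54 * sg h.l1 * sg (sg g.l3)) * h2
  · simp only [st_l0, st_l1, st_l2, st_l3, mul_l1, mul_l3, cj, map_add,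
      map_mul, map_neg, sg_of, sg_sg_sg_sg]
    linear_combination (sg (sg (sg g.l1)) * h.l2 + sg (sg (sg g.l2)) * sg h.l1) * h3
  · simp only [st_l0, st_l1, st_l2, st_l3, mul_l2, cj,
      map_mul, map_neg, sg_of, sg_sg_sg_sg]
    linear_combination (g.l1 * sg h.l1) * h4 - (g.l3 * sg (sg (sg h.l3))) * h1
  · simp only [st_l0, st_l1, st_l2, st_l3, mul_l1, mul_l3, cj, map_add, map_sub,
      map_mul, map_neg, map_ofNat, sg_of, sg_sg_sg_sg]
    linear_combination (sg g.l2 * sg (sg (sg h.l3)) + sg g.l3 * h.l2) * h3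

theorem st_add (g h : A5 ℝ) : st (g + h) = st g + st h := by
  ext1 <;> simp only [st_l0, st_l1, st_l2, st_l3, add_l0, add_l1, add_l2, add_l3, cj, map_add]
    <;> ring

theorem st_st (g : A5 ℝ) : st (st g) = g := by
  have h2 := of_s54_inv
  ext1
  · simp only [st_l0, cj, sg_sg_sg_sg]
  · simp only [st_l1, st_l3, map_mul, map_neg, sg_of, sg_sg_sg_sg]
    linear_combination g.l1 * h2
  · simp only [st_l2, neg_neg]
  · simp only [st_l1, st_l3, map_mul, map_neg, sg_of, sg_sg_sg_sg]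
    linear_combination g.l3 * h2

theorem st_one : st 1 = 1 := by
  ext1 <;> simp [cj]

/-- The embedding of `V = ℝ^6` in `A5 ℝ`: `(a0, a1, b0, b1, b2, b3)` is sent to the symmetric
element with `l0 = a0 + a1 √5`, `l1 = b0 + b1 z + b2 z^2 + b3 z^3`. -/
noncomputable def emb (v : Fin 6 → ℝ) : A5 ℝ :=
  ⟨⟨v 0 - v 1, 0, -2 * v 1, -2 * v 1⟩, ⟨v 2, v 3, v 4, v 5⟩, 0,
    -(L5.of (s54 / 54) * sg ⟨v 2, v 3, v 4, v 5⟩)⟩

/-- Coordinates of the symmetric elements. -/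
noncomputable def co (X : A5 ℝ) : Fin 6 → ℝ :=
  ![X.l0.c0 - X.l0.c2 / 2, -(X.l0.c2 / 2), X.l1.c0, X.l1.c1, X.l1.c2, X.l1.c3]

theorem co_emb (v : Fin 6 → ℝ) : co (emb v) = v := by
  funext i
  fin_cases i <;> simp [co, emb] <;> ring

theorem st_emb (v : Fin 6 → ℝ) : st (emb v) = emb v := by
  ext <;> simp [st, emb, cj, L5.of] <;> ring_nf
  all_goals
    have h' : s54 ^ 2 = 54 := by rw [sq]; exact s54_sq
    rw [h']; ring

theorem emb_co (X : A5 ℝ) (h : st X = X) : emb (co X) = X := by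
  have h0 := congrArg (fun g : A5 ℝ => g.l0) h
  have h1 := congrArg (fun g : A5 ℝ => g.l1) h
  have h2 := congrArg (fun g : A5 ℝ => g.l2) h
  have h3 := congrArg (fun g : A5 ℝ => g.l3) h
  simp only [st_l0, st_l1, st_l2, st_l3] at h0 h1 h2 h3
  have h00 := congrArg L5.c0 h0
  have h01 := congrArg L5.c1 h0
  have h02 := congrArg L5.c2 h0
  have h03 := congrArg L5.c3 h0
  simp only [cj, sg_c0, sg_c1, sg_c2, sg_c3] at h00 h01 h02 h03
  have h20 := congrArg L5.c0 h2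
  have h21 := congrArg L5.c1 h2
  have h22 := congrArg L5.c2 h2
  have h23 := congrArg L5.c3 h2
  simp only [neg_c0, neg_c1, neg_c2, neg_c3] at h20 h21 h22 h23
  have e1 : (⟨(co X) 2, (co X) 3, (co X) 4, (co X) 5⟩ : L5 ℝ) = X.l1 := by
    ext <;> simp [co]
  ext1
  · ext <;> simp [emb, co] <;> linarith
  · show (⟨(co X) 2, (co X) 3, (co X) 4, (co X) 5⟩ : L5 ℝ) = X.l1
    exact e1
  · show (0 : L5 ℝ) = X.l2
    ext <;> simp <;> linarith
  · show -(L5.of (s54 / 54) * sg (⟨(co X) 2, (co X) 3, (co X) 4, (co X) 5⟩ : L5 ℝ)) = X.l3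
    rw [e1]; exact h3

/-- The quadratic form of `V`, signature `(1,5)`. -/
noncomputable def B6 (v w : Fin 6 → ℝ) : ℝ :=
  v 0 * w 0 - 5 * (v 1 * w 1) - s54 *
    (2 * (v 2 * w 2 + v 3 * w 3 + v 4 * w 4 + v 5 * w 5) -
      (v 2 * (w 3 + w 4 + w 5) + v 3 * (w 2 + w 4 + w 5) + v 4 * (w 2 + w 3 + w 5) +
        v 5 * (w 2 + w 3 + w 4)) / 2)

/-- `T g X = g X g*`. -/
noncomputable def T (g : A5 ℝ) (v : Fin 6 → ℝ) : Fin 6 → ℝ := co (g * emb v * st g)

theorem emb_T (g : A5 ℝ) (v : Fin 6 → ℝ) : emb (T g v) = g * emb v * st g := by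
  unfold T
  apply emb_co
  rw [st_mul, st_mul, st_st, st_emb, mul_assoc]

theorem T_mul (g h : A5 ℝ) (v : Fin 6 → ℝ) : T (g * h) v = T g (T h v) := by
  have : emb (T (g * h) v) = emb (T g (T h v)) := by
    rw [emb_T, emb_T, emb_T, st_mul]
    simp only [mul_assoc]
  rw [← co_emb (T (g * h) v), this, co_emb]

theorem T_one (v : Fin 6 → ℝ) : T 1 v = v := by
  rw [← co_emb (T 1 v), emb_T, st_one, one_mul, mul_one, co_emb]

/-- the base point `1 ∈ V`. -/
def o6 : Fin 6 → ℝ := ![1, 0, 0, 0, 0, 0]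

theorem emb_o6 : emb o6 = 1 := by
  ext <;> simp [emb, o6, L5.of]

/-- the reduced norm. -/
noncomputable def nr (g : A5 ℝ) : ℝ := B6 (T g o6) (T g o6)

end H77T2
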