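import Pool.Agent.Helper77.T2.Ord

namespace H77T2

open L5 A5

theorem lin_x : lin (ec 17) = 45 * A5.x := by decide +kernel
theorem lin_z : lin (ec 5) = 45 * A5.z := by decide +kernel
theorem w_sq : lin (ec 0) * lin (ec 0) = 90 * lin (ec 1) := by decide +kernel
theorem u1_inv : lin (ec 1) * lin (ec 2) = 2025 := by decide +kernel
theorem u1_inv' : lin (ec 2) * lin (ec 1) = 2025 := by decide +kernel
theorem x_w : lin (ec 17) * lin (ec 0) * 45 = lin (ec 3) * lin (ec 0) * lin (ec 17) := by
  decide +kernel
theorem u2_inv : lin (ec 3) * lin (ec 4) = 2025 := by decide +kernel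
theorem u2_inv' : lin (ec 4) * lin (ec 3) = 2025 := by decide +kernel
theorem z_inv : lin (ec 5) * lin (ec 6) = 2025 := by decide +kernel
theorem z_inv' : lin (ec 6) * lin (ec 5) = 2025 := by decide +kernel
theorem k0_inv : lin (ec 7) * lin (ec 8) = 2025 := by decide +kernel
theorem k0_inv' : lin (ec 8) * lin (ec 7) = 2025 := by decide +kernel
theorem k4_inv : lin (ec 9) * lin (ec 10) = 2025 := by decide +kernel
theorem k4_inv' : lin (ec 10) * lin (ec 9) = 2025 := by decide +kernel
theorem v2_inv : lin (ec 11) * lin (ec 12) = 2025 := by decide +kernel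
theorem v2_inv' : lin (ec 12) * lin (ec 11) = 2025 := by decide +kernel
theorem v3_inv : lin (ec 13) * lin (ec 14) = 2025 := by decide +kernel
theorem v3_inv' : lin (ec 14) * lin (ec 13) = 2025 := by decide +kernel
theorem k2_eq : lin (ec 11) * lin (ec 0) = 45 * lin (ec 15) := by decide +kernel
theorem k3_eq : lin (ec 13) * lin (ec 0) = 45 * lin (ec 16) := by decide +kernel

end H77T2
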