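import Pool.Agent.Helper77.T2.Ord

namespace H77T2

open L5 A5

theorem w_conj (i : Fin 16) : lin (ec 0) * bz i = lin (aw i) * lin (ec 0) := by
  revert i; decide +kernel

theorem x_conj (i : Fin 16) : lin (ec 17) * bz i = lin (ax i) * lin (ec 17) := by
  revert i; decide +kernel

end H77T2
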