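import Pool.Agent.Helper77.T2.ChkFA
import Pool.Agent.Helper77.T2.ChkFB
import Pool.Agent.Helper77.T2.ChkFC

/-!
# T2: the relations of the labelled permutations; the `Setup` in `WP`
-/

namespace H77T2

open Pool.Agent.Helper65.FN

theorem LW_one : LW 0 = 1 := by
  have h := rel_of_chkF F_one
  simpa using h

theorem lt_mul_z : ∀ a : Q20, lt (Q20.z * a) = qmulN 4 (lt a) := by decide +kernel
theorem lt_mul_x : ∀ a : Q20, lt (Q20.x * a) = qmulN 1 (lt a) := by decide +kernel

/-- the homomorphism of `Q20` -/
def qF : Q20 →* WP (Fin 405) (GL (Fin 2) ℤ) :=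
  Q20.homOf (fun a => LW (lt a)) LW_one
    (by
      intro a
      have h := rel_of_chkF (allb_spec F_z (lt a) a.v.2)
      simp only [List.map_cons, List.map_nil, List.prod_cons, List.prod_nil, mul_one] at h
      show LW (lt (Q20.z * a)) = LW (lt Q20.z) * LW (lt a)
      rw [lt_mul_z, ← h]
      rfl)
    (by
      intro a
      have h := rel_of_chkF (allb_spec F_x (lt a) a.v.2)
      simp only [List.map_cons, List.map_nil, List.prod_cons, List.prod_nil, mul_one] at h
      show LW (lt (Q20.x * a)) = LW (lt Q20.x) * LW (lt a)
      rw [lt_mul_x, ← h]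
      rfl)

theorem qF_apply (a : Q20) : qF a = LW (lt a) := rfl

/-- the labels of the side pairings -/
def setupF : Setup (WP (Fin 405) (GL (Fin 2) ℤ)) where
  q := qF
  k := fun m => LW (20 + m)
  st_rel := by
    intro m s hs
    have h := rel_of_chkF (F_st m s hs)
    simp only [List.map_cons, List.map_nil, List.prod_cons, List.prod_nil, mul_one] at h
    exact h
  inv_rel := by
    intro m
    have h := rel_of_chkF (F_inv m)
    simp only [List.map_cons, List.map_nil, List.prod_cons, List.prod_nil, mul_one] at h
    rw [← map_inv]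
    simp only [qF_apply, mul_assoc]
    exact h

end H77T2
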