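import Pool.Agent.Helper77.T2.GSetup
import Pool.Agent.Helper77.T2.FRel
import Pool.Agent.Helper65.FN.GamInst

/-!
# T2: the instance `D` (side pairings) and its labels `L`
-/

namespace H77T2

open Matrix Pool.Agent.Helper84.NG Pool.Agent.Helper74.TF Pool.Agent.Helper65.FN
  Pool.Agent.Helper65.L1

theorem LG_one : LG 0 = 1 := by
  have h := rel_of_chkM M_one
  simpa using h

/-- the homomorphism of `Q20` -/
noncomputable def qG : Q20 →* ↥(IsomHyp 5) :=
  Q20.homOf (fun a => LG (lt a)) LG_one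
    (by
      intro a
      have h := rel_of_chkM (allb_spec M_z (lt a) a.v.2)
      simp only [List.map_cons, List.map_nil, List.prod_cons, List.prod_nil, mul_one] at h
      show LG (lt (Q20.z * a)) = LG (lt Q20.z) * LG (lt a)
      rw [lt_mul_z, ← h]
      rfl)
    (by
      intro a
      have h := rel_of_chkM (allb_spec M_x (lt a) a.v.2)
      simp only [List.map_cons, List.map_nil, List.prod_cons, List.prod_nil, mul_one] at h
      show LG (lt (Q20.x * a)) = LG (lt Q20.x) * LG (lt a)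
      rw [lt_mul_x, ← h]
      rfl)

theorem qG_apply (a : Q20) : qG a = LG (lt a) := rfl

/-- the side pairings -/
noncomputable def setupG : Setup ↥(IsomHyp 5) where
  q := qG
  k := fun m => LG (20 + m)
  st_rel := by
    intro m s hs
    have h := rel_of_chkM (M_st m s hs)
    simp only [List.map_cons, List.map_nil, List.prod_cons, List.prod_nil, mul_one] at h
    exact h
  inv_rel := by
    intro m
    have h := rel_of_chkM (M_inv m)
    simp only [List.map_cons, List.map_nil, List.prod_cons, List.prod_nil, mul_one] at h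
    rw [← map_inv]
    simp only [qG_apply, mul_assoc]
    exact h

/-- `B6` as a bilinear map -/
noncomputable def BL : (Fin 6 → ℝ) →ₗ[ℝ] (Fin 6 → ℝ) →ₗ[ℝ] ℝ :=
  LinearMap.mk₂ ℝ B6
    (by intro a b c; unfold B6; simp only [Pi.add_apply]; ring)
    (by intro r a b; unfold B6; simp only [Pi.smul_apply, smul_eq_mul]; ring)
    (by intro a b c; unfold B6; simp only [Pi.add_apply]; ring)
    (by intro r a b; unfold B6; simp only [Pi.smul_apply, smul_eq_mul]; ring)

theorem BL_apply (v w : Fin 6 → ℝ) : BL v w = B6 v w := rfl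

theorem lt_lt (a : Q20) : lt a < 25 := lt_trans a.v.2 (by norm_num)

theorem rhoV_qG (a : Q20) : rhoV (qG a) o6 = o6 := by
  rw [qG_apply, rhoV_LG (lt_lt a), ← ov_toR, ← M6.toR_mulVec, fix_q]

/-- the polytope data -/
noncomputable def D : WD (Fin 6 → ℝ) ↥(IsomHyp 5) (Fin 52) where
  B := BL
  ρ := rhoV
  x0 := o6
  E0 := qG.range
  K := setupG.K
  isom := fun g v w => B6_rhoV g v w
  fix := by
    rintro _ ⟨a, rfl⟩
    exact rhoV_qG a
  eqv := by
    rintro _ ⟨a, rfl⟩ w
    exact ⟨_, _, ⟨Setup.vact a w, rfl⟩, setupG.eqv a w⟩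
  sym := by
    intro w
    exact ⟨_, _, ⟨Setup.invV w, rfl⟩, setupG.sym w⟩

/-- `qG` is injective -/
theorem qG_inj : Function.Injective qG := by
  have h0 := MT_one_imp
  rw [injective_iff_map_eq_one]
  intro a ha
  apply h0
  have h1 : ∀ v, (MT (lt a)).toR.mulVec v = v := by
    intro v
    rw [← rhoV_LG (lt_lt a), ← qG_apply, ha, map_one]
    rfl
  have h2 : (MT (lt a)).toR = M6.one.toR := by
    rw [M6.toR_one]
    apply Matrix.ext_of_mulVec_single
    intro i
    rw [h1, Matrix.one_mulVec]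
  have h3 : ∀ i, (MT (lt a)).toR i = M6.one.toR i := fun i => congrFun h2 i
  ext1
  · exact V6.toR_injective (h3 0)
  · exact V6.toR_injective (h3 1)
  · exact V6.toR_injective (h3 2)
  · exact V6.toR_injective (h3 3)
  · exact V6.toR_injective (h3 4)
  · exact V6.toR_injective (h3 5)

/-- the labels on `E0` -/
noncomputable def phi0 : D.E0 →* WP (Fin 405) (GL (Fin 2) ℤ) :=
  qF.comp (MonoidHom.ofInjective qG_inj).symm.toMonoidHom

theorem phi0_apply (a : Q20) : phi0 ⟨qG a, ⟨a, rfl⟩⟩ = qF a := by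
  show qF ((MonoidHom.ofInjective qG_inj).symm ⟨qG a, ⟨a, rfl⟩⟩) = qF a
  congr 1
  rw [MulEquiv.symm_apply_eq]
  rfl

/-- the labels -/
noncomputable def L : D.Lab (WP (Fin 405) (GL (Fin 2) ℤ)) where
  φ0 := phi0
  f := setupF.K
  eqv := by
    rintro ⟨_, ⟨a, rfl⟩⟩ w
    refine ⟨act a w, ⟨qG (Setup.vact a w), ⟨_, rfl⟩⟩, setupG.eqv a w, ?_⟩
    rw [phi0_apply, phi0_apply]
    exact setupF.eqv a w
  sym := by
    intro w
    refine ⟨Setup.invW w, ⟨qG (Setup.invV w), ⟨_, rfl⟩⟩, setupG.sym w, ?_⟩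
    rw [phi0_apply]
    exact setupF.sym w

end H77T2
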