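import Pool.Agent.Helper77.T2.Ord
import Pool.Agent.Helper77.T2.OrdB

/-!
# T2: the generators as units of `A5 ℚ`
-/

namespace H77T2

open L5 A5

theorem cancelN {n : ℕ} (hn : n ≠ 0) {a b : A5 ℚ} (h : (n : A5 ℚ) * a = (n : A5 ℚ) * b) :
    a = b := by
  have h1 : (n : A5 ℚ) = A5.of (n : ℚ) := (of_natCast n).symm
  have h2 : A5.of ((n : ℚ)⁻¹) * ((n : A5 ℚ) * a) = A5.of ((n : ℚ)⁻¹) * ((n : A5 ℚ) * b) := by
    rw [h]
  rw [h1, ← mul_assoc, ← mul_assoc, of_mul',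
    inv_mul_cancel₀ (by exact_mod_cast hn), of_one', one_mul, one_mul] at h2
  exact h2

/-- transfer of products from `A5 ℤ` -/
theorem oe_mul_oe {n m : Fin 16 → ℤ} {X : A5 ℤ} (h : lin n * lin m = 2025 * X) :
    oe n * oe m = toQ X := by
  apply cancelN (n := 2025) (by norm_num)
  have h1 := congrArg toQ h
  rw [map_mul, map_mul, ← oe_eq, ← oe_eq] at h1
  have h2 : (2025 : A5 ℤ) = ((2025 : ℕ) : A5 ℤ) := by norm_num
  rw [h2, toQ_ofNat] at h1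
  rw [← h1]
  have h45 : (45 : A5 ℚ) = ((45 : ℕ) : A5 ℚ) := by norm_num
  have h3 : ((2025 : ℕ) : A5 ℚ) = ((45 : ℕ) : A5 ℚ) * ((45 : ℕ) : A5 ℚ) := by norm_num
  have hc : oe n * ((45 : ℕ) : A5 ℚ) = ((45 : ℕ) : A5 ℚ) * oe n :=
    ((Nat.cast_commute 45 (oe n)).eq).symm
  rw [h45, h3]
  calc ((45 : ℕ) : A5 ℚ) * ((45 : ℕ) : A5 ℚ) * (oe n * oe m)
      = ((45 : ℕ) : A5 ℚ) * (((45 : ℕ) : A5 ℚ) * oe n * oe m) := by simp only [mul_assoc]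
    _ = ((45 : ℕ) : A5 ℚ) * (oe n * ((45 : ℕ) : A5 ℚ) * oe m) := by rw [hc]
    _ = _ := by simp only [mul_assoc]

theorem oe_one {n m : Fin 16 → ℤ} (h : lin n * lin m = 2025) : oe n * oe m = 1 := by
  rw [oe_mul_oe (X := 1) (by rw [h, mul_one]), map_one]

/-- the unit of `A5 ℚ` given by two mutually inverse elements of `O` -/
def uO (n m : Fin 16 → ℤ) (h : lin n * lin m = 2025) (h' : lin m * lin n = 2025) : (A5 ℚ)ˣ :=
  ⟨oe n, oe m, oe_one h, oe_one h'⟩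

def uz : (A5 ℚ)ˣ := uO (ec 5) (ec 6) z_inv z_inv'
def u1 : (A5 ℚ)ˣ := uO (ec 1) (ec 2) u1_inv u1_inv'
def u2 : (A5 ℚ)ˣ := uO (ec 3) (ec 4) u2_inv u2_inv'
def uk0 : (A5 ℚ)ˣ := uO (ec 7) (ec 8) k0_inv k0_inv'
def uk4 : (A5 ℚ)ˣ := uO (ec 9) (ec 10) k4_inv k4_inv'
def uv2 : (A5 ℚ)ˣ := uO (ec 11) (ec 12) v2_inv v2_inv'
def uv3 : (A5 ℚ)ˣ := uO (ec 13) (ec 14) v3_inv v3_inv'

theorem w_mul_w : oe (ec 0) * oe (ec 0) = 2 * oe (ec 1) := by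
  apply cancelN (n := 2025) (by norm_num)
  have h1 := congrArg toQ w_sq
  rw [map_mul, map_mul, ← oe_eq, ← oe_eq] at h1
  have h2 : (90 : A5 ℤ) = ((90 : ℕ) : A5 ℤ) := by norm_num
  rw [h2, toQ_ofNat] at h1
  have h45 : (45 : A5 ℚ) = ((45 : ℕ) : A5 ℚ) := by norm_num
  have h3 : ((2025 : ℕ) : A5 ℚ) = ((45 : ℕ) : A5 ℚ) * ((45 : ℕ) : A5 ℚ) := by norm_num
  have hc : oe (ec 0) * ((45 : ℕ) : A5 ℚ) = ((45 : ℕ) : A5 ℚ) * oe (ec 0) :=
    ((Nat.cast_commute 45 (oe (ec 0))).eq).symm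
  have h4 : ((45 : ℕ) : A5 ℚ) * ((45 : ℕ) : A5 ℚ) * (oe (ec 0) * oe (ec 0)) =
      ((90 : ℕ) : A5 ℚ) * (((45 : ℕ) : A5 ℚ) * oe (ec 1)) := by
    rw [h45] at h1
    rw [← h1]
    calc ((45 : ℕ) : A5 ℚ) * ((45 : ℕ) : A5 ℚ) * (oe (ec 0) * oe (ec 0))
        = ((45 : ℕ) : A5 ℚ) * (((45 : ℕ) : A5 ℚ) * oe (ec 0) * oe (ec 0)) := by
          simp only [mul_assoc]
      _ = ((45 : ℕ) : A5 ℚ) * (oe (ec 0) * ((45 : ℕ) : A5 ℚ) * oe (ec 0)) := by rw [hc]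
      _ = _ := by simp only [mul_assoc]
  rw [h3, h4, ← mul_assoc, ← mul_assoc]
  congr 1
  norm_num

theorem x_pow4 {R : Type*} [CommRing R] : (A5.x : A5 R) * A5.x * A5.x * A5.x = -54 := by
  have h : (54 : A5 R) = ((54 : ℕ) : A5 R) := by norm_num
  have h' : (54 : L5 R) = ((54 : ℕ) : L5 R) := by norm_num
  rw [h]
  ext1 <;> simp only [A5.x, mul_l0, mul_l1, mul_l2, mul_l3, neg_l0, neg_l1, neg_l2, neg_l3,
    natCast_l0, natCast_l1, natCast_l2, natCast_l3, map_zero, map_one, h'] <;> ring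

theorem neg54 : (-54 : A5 ℚ) = A5.of (-54) := by
  have h := of_natCast 54
  have : A5.of (-54 : ℚ) = -A5.of (54 : ℚ) := by
    ext <;> simp [A5.of, L5.of]
  rw [this]
  norm_num at h ⊢
  exact h.symm

/-- `x` as a unit -/
def ux : (A5 ℚ)ˣ where
  val := A5.x
  inv := A5.of (-1 / 54 : ℚ) * (A5.x * A5.x * A5.x)
  val_inv := by
    rw [← mul_assoc, ← of_comm, mul_assoc, show A5.x * (A5.x * A5.x * A5.x) =
      (A5.x : A5 ℚ) * A5.x * A5.x * A5.x by simp only [mul_assoc], x_pow4, neg54, of_mul']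
    norm_num
    exact of_one'
  inv_val := by
    rw [mul_assoc, x_pow4, neg54, of_mul']
    norm_num
    exact of_one'

theorem two_eq : (2 : A5 ℚ) = A5.of 2 := by
  have h := of_natCast 2
  norm_num at h
  exact h.symm

/-- `w` as a unit: `w⁻¹ = (1/2) w u1⁻¹` -/
def uw : (A5 ℚ)ˣ where
  val := oe (ec 0)
  inv := A5.of (1 / 2 : ℚ) * (oe (ec 0) * oe (ec 2))
  val_inv := by
    rw [← mul_assoc, ← of_comm, mul_assoc, ← mul_assoc (oe (ec 0)), w_mul_w, mul_assoc,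
      oe_one u1_inv, mul_one, two_eq, of_mul']
    norm_num
    exact of_one'
  inv_val := by
    have hc : oe (ec 0) * oe (ec 1) = oe (ec 1) * oe (ec 0) := by
      apply cancelN (n := 2) (by norm_num)
      have h1 : ((2 : ℕ) : A5 ℚ) = 2 := by norm_num
      have h2 : oe (ec 0) * ((2 : ℕ) : A5 ℚ) = ((2 : ℕ) : A5 ℚ) * oe (ec 0) :=
        ((Nat.cast_commute 2 (oe (ec 0))).eq).symm
      rw [← mul_assoc, ← h2, mul_assoc, h1, ← w_mul_w, ← mul_assoc, ← mul_assoc, ← w_mul_w]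
    have hc' : oe (ec 2) * oe (ec 0) = oe (ec 0) * oe (ec 2) := by
      calc oe (ec 2) * oe (ec 0) = oe (ec 2) * oe (ec 0) * (oe (ec 1) * oe (ec 2)) := by
            rw [oe_one u1_inv, mul_one]
        _ = oe (ec 2) * (oe (ec 0) * oe (ec 1)) * oe (ec 2) := by simp only [mul_assoc]
        _ = (oe (ec 2) * oe (ec 1)) * (oe (ec 0) * oe (ec 2)) := by
            rw [hc]; simp only [mul_assoc]
        _ = _ := by rw [oe_one u1_inv', one_mul]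
    rw [mul_assoc, mul_assoc, hc', ← mul_assoc (oe (ec 0)), w_mul_w, mul_assoc,
      oe_one u1_inv, mul_one, two_eq, of_mul']
    norm_num
    exact of_one'

/-- the representatives of the side pairings -/
def uk : Fin 5 → (A5 ℚ)ˣ := ![uk0, uw, uv2 * uw, uv3 * uw, uk4]

theorem uz_val : (uz : A5 ℚ) = A5.z := by
  apply cancel45
  show 45 * oe (ec 5) = _
  rw [oe_eq, lin_z, map_mul, map_ofNat]
  congr 1

theorem oe_mul_val {n m k : Fin 16 → ℤ} (h : lin n * lin m = 45 * lin k) :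
    oe n * oe m = oe k := by
  apply cancelN (n := 2025) (by norm_num)
  have h1 := congrArg toQ h
  rw [map_mul, map_mul, ← oe_eq, ← oe_eq, ← oe_eq] at h1
  have h2 : (45 : A5 ℤ) = ((45 : ℕ) : A5 ℤ) := by norm_num
  rw [h2, toQ_ofNat] at h1
  have h45 : (45 : A5 ℚ) = ((45 : ℕ) : A5 ℚ) := by norm_num
  have h3 : ((2025 : ℕ) : A5 ℚ) = ((45 : ℕ) : A5 ℚ) * ((45 : ℕ) : A5 ℚ) := by norm_num
  have hc : oe n * ((45 : ℕ) : A5 ℚ) = ((45 : ℕ) : A5 ℚ) * oe n :=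
    ((Nat.cast_commute 45 (oe n)).eq).symm
  rw [h45] at h1
  rw [h3, mul_assoc _ _ (oe k), ← h1]
  calc ((45 : ℕ) : A5 ℚ) * ((45 : ℕ) : A5 ℚ) * (oe n * oe m)
      = ((45 : ℕ) : A5 ℚ) * (((45 : ℕ) : A5 ℚ) * oe n * oe m) := by simp only [mul_assoc]
    _ = ((45 : ℕ) : A5 ℚ) * (oe n * ((45 : ℕ) : A5 ℚ) * oe m) := by rw [hc]
    _ = _ := by simp only [mul_assoc]

theorem uk2_val : ((uk 2 : (A5 ℚ)ˣ) : A5 ℚ) = oe (ec 15) := oe_mul_val k2_eq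
theorem uk3_val : ((uk 3 : (A5 ℚ)ˣ) : A5 ℚ) = oe (ec 16) := oe_mul_val k3_eq

end H77T2
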