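import Mathlib

/-!
# T2: the cyclic algebra `A(R)` of degree 4

`L5 R = R[z]/(1+z+z^2+z^3+z^4)`, `sg z = z^2`, and
`A5 R = {l0 + l1 x + l2 x^2 + l3 x^3}`, `x l = sg l * x`, `x^4 = -54`.
-/

namespace H77T2

/-- `c0 + c1 z + c2 z^2 + c3 z^3` with `z^4 = -1 - z - z^2 - z^3`. -/
@[ext] structure L5 (R : Type*) where
  c0 : R
  c1 : R
  c2 : R
  c3 : R
  deriving DecidableEq

namespace L5

variable {R : Type*} [CommRing R]

instance : Zero (L5 R) := ⟨⟨0, 0, 0, 0⟩⟩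
instance : One (L5 R) := ⟨⟨1, 0, 0, 0⟩⟩
instance : Add (L5 R) := ⟨fun p q => ⟨p.c0 + q.c0, p.c1 + q.c1, p.c2 + q.c2, p.c3 + q.c3⟩⟩
instance : Neg (L5 R) := ⟨fun p => ⟨-p.c0, -p.c1, -p.c2, -p.c3⟩⟩
instance : Sub (L5 R) := ⟨fun p q => ⟨p.c0 - q.c0, p.c1 - q.c1, p.c2 - q.c2, p.c3 - q.c3⟩⟩
instance : SMul ℕ (L5 R) := ⟨fun n p => ⟨n • p.c0, n • p.c1, n • p.c2, n • p.c3⟩⟩
instance : SMul ℤ (L5 R) := ⟨fun n p => ⟨n • p.c0, n • p.c1, n • p.c2, n • p.c3⟩⟩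
instance : NatCast (L5 R) := ⟨fun n => ⟨n, 0, 0, 0⟩⟩
instance : IntCast (L5 R) := ⟨fun n => ⟨n, 0, 0, 0⟩⟩

instance : Mul (L5 R) := ⟨fun p q =>
  ⟨p.c0 * q.c0 - (p.c1 * q.c3 + p.c2 * q.c2 + p.c3 * q.c1) + (p.c2 * q.c3 + p.c3 * q.c2),
   p.c0 * q.c1 + p.c1 * q.c0 - (p.c1 * q.c3 + p.c2 * q.c2 + p.c3 * q.c1) + p.c3 * q.c3,
   p.c0 * q.c2 + p.c1 * q.c1 + p.c2 * q.c0 - (p.c1 * q.c3 + p.c2 * q.c2 + p.c3 * q.c1),
   p.c0 * q.c3 + p.c1 * q.c2 + p.c2 * q.c1 + p.c3 * q.c0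
     - (p.c1 * q.c3 + p.c2 * q.c2 + p.c3 * q.c1)⟩⟩

@[simp] theorem zero_c0 : (0 : L5 R).c0 = 0 := rfl
@[simp] theorem zero_c1 : (0 : L5 R).c1 = 0 := rfl
@[simp] theorem zero_c2 : (0 : L5 R).c2 = 0 := rfl
@[simp] theorem zero_c3 : (0 : L5 R).c3 = 0 := rfl
@[simp] theorem one_c0 : (1 : L5 R).c0 = 1 := rfl
@[simp] theorem one_c1 : (1 : L5 R).c1 = 0 := rfl
@[simp] theorem one_c2 : (1 : L5 R).c2 = 0 := rfl
@[simp] theorem one_c3 : (1 : L5 R).c3 = 0 := rfl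
@[simp] theorem add_c0 (p q : L5 R) : (p + q).c0 = p.c0 + q.c0 := rfl
@[simp] theorem add_c1 (p q : L5 R) : (p + q).c1 = p.c1 + q.c1 := rfl
@[simp] theorem add_c2 (p q : L5 R) : (p + q).c2 = p.c2 + q.c2 := rfl
@[simp] theorem add_c3 (p q : L5 R) : (p + q).c3 = p.c3 + q.c3 := rfl
@[simp] theorem neg_c0 (p : L5 R) : (-p).c0 = -p.c0 := rfl
@[simp] theorem neg_c1 (p : L5 R) : (-p).c1 = -p.c1 := rfl
@[simp] theorem neg_c2 (p : L5 R) : (-p).c2 = -p.c2 := rfl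
@[simp] theorem neg_c3 (p : L5 R) : (-p).c3 = -p.c3 := rfl
@[simp] theorem sub_c0 (p q : L5 R) : (p - q).c0 = p.c0 - q.c0 := rfl
@[simp] theorem sub_c1 (p q : L5 R) : (p - q).c1 = p.c1 - q.c1 := rfl
@[simp] theorem sub_c2 (p q : L5 R) : (p - q).c2 = p.c2 - q.c2 := rfl
@[simp] theorem sub_c3 (p q : L5 R) : (p - q).c3 = p.c3 - q.c3 := rfl
@[simp] theorem natCast_c0 (n : ℕ) : (n : L5 R).c0 = n := rfl
@[simp] theorem natCast_c1 (n : ℕ) : (n : L5 R).c1 = 0 := rfl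
@[simp] theorem natCast_c2 (n : ℕ) : (n : L5 R).c2 = 0 := rfl
@[simp] theorem natCast_c3 (n : ℕ) : (n : L5 R).c3 = 0 := rfl
@[simp] theorem intCast_c0 (n : ℤ) : (n : L5 R).c0 = n := rfl
@[simp] theorem intCast_c1 (n : ℤ) : (n : L5 R).c1 = 0 := rfl
@[simp] theorem intCast_c2 (n : ℤ) : (n : L5 R).c2 = 0 := rfl
@[simp] theorem intCast_c3 (n : ℤ) : (n : L5 R).c3 = 0 := rfl
@[simp] theorem mul_c0 (p q : L5 R) : (p * q).c0 =
    p.c0 * q.c0 - (p.c1 * q.c3 + p.c2 * q.c2 + p.c3 * q.c1) + (p.c2 * q.c3 + p.c3 * q.c2) := rfl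
@[simp] theorem mul_c1 (p q : L5 R) : (p * q).c1 =
    p.c0 * q.c1 + p.c1 * q.c0 - (p.c1 * q.c3 + p.c2 * q.c2 + p.c3 * q.c1) + p.c3 * q.c3 := rfl
@[simp] theorem mul_c2 (p q : L5 R) : (p * q).c2 =
    p.c0 * q.c2 + p.c1 * q.c1 + p.c2 * q.c0 - (p.c1 * q.c3 + p.c2 * q.c2 + p.c3 * q.c1) := rfl
@[simp] theorem mul_c3 (p q : L5 R) : (p * q).c3 =
    p.c0 * q.c3 + p.c1 * q.c2 + p.c2 * q.c1 + p.c3 * q.c0
     - (p.c1 * q.c3 + p.c2 * q.c2 + p.c3 * q.c1) := rfl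

instance : CommRing (L5 R) where
  add_assoc a b c := by ext <;> simp <;> ring
  zero_add a := by ext <;> simp
  add_zero a := by ext <;> simp
  add_comm a b := by ext <;> simp <;> ring
  neg_add_cancel a := by ext <;> simp
  sub_eq_add_neg a b := by ext <;> simp <;> ring
  nsmul n p := n • p
  nsmul_zero p := by ext <;> exact AddMonoid.nsmul_zero _
  nsmul_succ n p := by ext <;> exact AddMonoid.nsmul_succ n _
  zsmul n p := n • p
  zsmul_zero' p := by ext <;> exact SubNegMonoid.zsmul_zero' _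
  zsmul_succ' n p := by
    ext <;> exact SubNegMonoid.zsmul_succ' n _
  zsmul_neg' n p := by
    ext <;> exact SubNegMonoid.zsmul_neg' n _
  left_distrib a b c := by ext <;> simp <;> ring
  right_distrib a b c := by ext <;> simp <;> ring
  zero_mul a := by ext <;> simp
  mul_zero a := by ext <;> simp
  mul_assoc a b c := by ext <;> simp <;> ring
  one_mul a := by ext <;> simp
  mul_one a := by ext <;> simp
  mul_comm a b := by ext <;> simp <;> ring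
  natCast n := (n : L5 R)
  natCast_zero := by ext <;> simp
  natCast_succ n := by ext <;> simp
  intCast n := (n : L5 R)
  intCast_ofNat n := by ext <;> simp
  intCast_negSucc n := by ext <;> simp

/-- the automorphism `z ↦ z^2`, as a ring homomorphism. -/
def sg : L5 R →+* L5 R where
  toFun p := ⟨p.c0 - p.c2, p.c3 - p.c2, p.c1 - p.c2, -p.c2⟩
  map_one' := by ext <;> simp
  map_mul' p q := by ext <;> simp <;> ring
  map_zero' := by ext <;> simp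
  map_add' p q := by ext <;> simp <;> ring

@[simp] theorem sg_c0 (p : L5 R) : (sg p).c0 = p.c0 - p.c2 := rfl
@[simp] theorem sg_c1 (p : L5 R) : (sg p).c1 = p.c3 - p.c2 := rfl
@[simp] theorem sg_c2 (p : L5 R) : (sg p).c2 = p.c1 - p.c2 := rfl
@[simp] theorem sg_c3 (p : L5 R) : (sg p).c3 = -p.c2 := rfl

theorem sg_sg_sg_sg (p : L5 R) : sg (sg (sg (sg p))) = p := by
  ext <;> simp <;> ring

/-- complex conjugation `z ↦ z^{-1} = z^4`. -/
def cj (p : L5 R) : L5 R := sg (sg p)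

/-- scalars. -/
def of (r : R) : L5 R := ⟨r, 0, 0, 0⟩

/-- the generator `z`. -/
def z : L5 R := ⟨0, 1, 0, 0⟩

/-- functoriality. -/
def map {S : Type*} [CommRing S] (f : R →+* S) : L5 R →+* L5 S where
  toFun p := ⟨f p.c0, f p.c1, f p.c2, f p.c3⟩
  map_one' := by ext <;> simp
  map_mul' p q := by ext <;> simp
  map_zero' := by ext <;> simp
  map_add' p q := by ext <;> simp

@[simp] theorem map_c0 {S : Type*} [CommRing S] (f : R →+* S) (p : L5 R) :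
    (map f p).c0 = f p.c0 := rfl
@[simp] theorem map_c1 {S : Type*} [CommRing S] (f : R →+* S) (p : L5 R) :
    (map f p).c1 = f p.c1 := rfl
@[simp] theorem map_c2 {S : Type*} [CommRing S] (f : R →+* S) (p : L5 R) :
    (map f p).c2 = f p.c2 := rfl
@[simp] theorem map_c3 {S : Type*} [CommRing S] (f : R →+* S) (p : L5 R) :
    (map f p).c3 = f p.c3 := rfl

end L5

open L5

/-- `l0 + l1 x + l2 x^2 + l3 x^3`, `x l = sg l * x`, `x^4 = -54`. -/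
@[ext] structure A5 (R : Type*) where
  l0 : L5 R
  l1 : L5 R
  l2 : L5 R
  l3 : L5 R
  deriving DecidableEq

namespace A5

variable {R : Type*} [CommRing R]

instance : Zero (A5 R) := ⟨⟨0, 0, 0, 0⟩⟩
instance : One (A5 R) := ⟨⟨1, 0, 0, 0⟩⟩
instance : Add (A5 R) := ⟨fun p q => ⟨p.l0 + q.l0, p.l1 + q.l1, p.l2 + q.l2, p.l3 + q.l3⟩⟩
instance : Neg (A5 R) := ⟨fun p => ⟨-p.l0, -p.l1, -p.l2, -p.l3⟩⟩
instance : Sub (A5 R) := ⟨fun p q => ⟨p.l0 - q.l0, p.l1 - q.l1, p.l2 - q.l2, p.l3 - q.l3⟩⟩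
instance : SMul ℕ (A5 R) := ⟨fun n p => ⟨n • p.l0, n • p.l1, n • p.l2, n • p.l3⟩⟩
instance : SMul ℤ (A5 R) := ⟨fun n p => ⟨n • p.l0, n • p.l1, n • p.l2, n • p.l3⟩⟩
instance : NatCast (A5 R) := ⟨fun n => ⟨n, 0, 0, 0⟩⟩
instance : IntCast (A5 R) := ⟨fun n => ⟨n, 0, 0, 0⟩⟩

instance : Mul (A5 R) := ⟨fun p q =>
  ⟨p.l0 * q.l0 - 54 * (p.l1 * sg q.l3 + p.l2 * sg (sg q.l2) + p.l3 * sg (sg (sg q.l1))),
   p.l0 * q.l1 + p.l1 * sg q.l0 - 54 * (p.l2 * sg (sg q.l3) + p.l3 * sg (sg (sg q.l2))),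
   p.l0 * q.l2 + p.l1 * sg q.l1 + p.l2 * sg (sg q.l0) - 54 * (p.l3 * sg (sg (sg q.l3))),
   p.l0 * q.l3 + p.l1 * sg q.l2 + p.l2 * sg (sg q.l1) + p.l3 * sg (sg (sg q.l0))⟩⟩

@[simp] theorem zero_l0 : (0 : A5 R).l0 = 0 := rfl
@[simp] theorem zero_l1 : (0 : A5 R).l1 = 0 := rfl
@[simp] theorem zero_l2 : (0 : A5 R).l2 = 0 := rfl
@[simp] theorem zero_l3 : (0 : A5 R).l3 = 0 := rfl
@[simp] theorem one_l0 : (1 : A5 R).l0 = 1 := rfl
@[simp] theorem one_l1 : (1 : A5 R).l1 = 0 := rfl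
@[simp] theorem one_l2 : (1 : A5 R).l2 = 0 := rfl
@[simp] theorem one_l3 : (1 : A5 R).l3 = 0 := rfl
@[simp] theorem add_l0 (p q : A5 R) : (p + q).l0 = p.l0 + q.l0 := rfl
@[simp] theorem add_l1 (p q : A5 R) : (p + q).l1 = p.l1 + q.l1 := rfl
@[simp] theorem add_l2 (p q : A5 R) : (p + q).l2 = p.l2 + q.l2 := rfl
@[simp] theorem add_l3 (p q : A5 R) : (p + q).l3 = p.l3 + q.l3 := rfl
@[simp] theorem neg_l0 (p : A5 R) : (-p).l0 = -p.l0 := rfl
@[simp] theorem neg_l1 (p : A5 R) : (-p).l1 = -p.l1 := rfl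
@[simp] theorem neg_l2 (p : A5 R) : (-p).l2 = -p.l2 := rfl
@[simp] theorem neg_l3 (p : A5 R) : (-p).l3 = -p.l3 := rfl
@[simp] theorem sub_l0 (p q : A5 R) : (p - q).l0 = p.l0 - q.l0 := rfl
@[simp] theorem sub_l1 (p q : A5 R) : (p - q).l1 = p.l1 - q.l1 := rfl
@[simp] theorem sub_l2 (p q : A5 R) : (p - q).l2 = p.l2 - q.l2 := rfl
@[simp] theorem sub_l3 (p q : A5 R) : (p - q).l3 = p.l3 - q.l3 := rfl
@[simp] theorem natCast_l0 (n : ℕ) : (n : A5 R).l0 = n := rfl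
@[simp] theorem natCast_l1 (n : ℕ) : (n : A5 R).l1 = 0 := rfl
@[simp] theorem natCast_l2 (n : ℕ) : (n : A5 R).l2 = 0 := rfl
@[simp] theorem natCast_l3 (n : ℕ) : (n : A5 R).l3 = 0 := rfl
@[simp] theorem intCast_l0 (n : ℤ) : (n : A5 R).l0 = n := rfl
@[simp] theorem intCast_l1 (n : ℤ) : (n : A5 R).l1 = 0 := rfl
@[simp] theorem intCast_l2 (n : ℤ) : (n : A5 R).l2 = 0 := rfl
@[simp] theorem intCast_l3 (n : ℤ) : (n : A5 R).l3 = 0 := rfl
@[simp] theorem mul_l0 (p q : A5 R) : (p * q).l0 =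
    p.l0 * q.l0 - 54 * (p.l1 * sg q.l3 + p.l2 * sg (sg q.l2) + p.l3 * sg (sg (sg q.l1))) := rfl
@[simp] theorem mul_l1 (p q : A5 R) : (p * q).l1 =
    p.l0 * q.l1 + p.l1 * sg q.l0 - 54 * (p.l2 * sg (sg q.l3) + p.l3 * sg (sg (sg q.l2))) := rfl
@[simp] theorem mul_l2 (p q : A5 R) : (p * q).l2 =
    p.l0 * q.l2 + p.l1 * sg q.l1 + p.l2 * sg (sg q.l0) - 54 * (p.l3 * sg (sg (sg q.l3))) := rfl
@[simp] theorem mul_l3 (p q : A5 R) : (p * q).l3 =
    p.l0 * q.l3 + p.l1 * sg q.l2 + p.l2 * sg (sg q.l1) + p.l3 * sg (sg (sg q.l0)) := rfl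

theorem mul_assoc' (a b c : A5 R) : a * b * c = a * (b * c) := by
  ext1
  · simp only [mul_l0, mul_l1, mul_l2, mul_l3, map_sub, map_add, map_mul, sg_sg_sg_sg,
      map_ofNat]
    ring
  · simp only [mul_l0, mul_l1, mul_l2, mul_l3, map_sub, map_add, map_mul, sg_sg_sg_sg,
      map_ofNat]
    ring
  · simp only [mul_l0, mul_l1, mul_l2, mul_l3, map_sub, map_add, map_mul, sg_sg_sg_sg,
      map_ofNat]
    ring
  · simp only [mul_l0, mul_l1, mul_l2, mul_l3, map_sub, map_add, map_mul, sg_sg_sg_sg,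
      map_ofNat]
    ring

instance : Ring (A5 R) where
  add_assoc a b c := by ext1 <;> simp <;> ring
  zero_add a := by ext1 <;> simp
  add_zero a := by ext1 <;> simp
  add_comm a b := by ext1 <;> simp <;> ring
  neg_add_cancel a := by ext1 <;> simp
  sub_eq_add_neg a b := by ext1 <;> simp <;> ring
  nsmul n p := n • p
  nsmul_zero p := by ext1 <;> exact AddMonoid.nsmul_zero _
  nsmul_succ n p := by ext1 <;> exact AddMonoid.nsmul_succ n _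
  zsmul n p := n • p
  zsmul_zero' p := by ext1 <;> exact SubNegMonoid.zsmul_zero' _
  zsmul_succ' n p := by ext1 <;> exact SubNegMonoid.zsmul_succ' n _
  zsmul_neg' n p := by ext1 <;> exact SubNegMonoid.zsmul_neg' n _
  left_distrib a b c := by
    ext1 <;> simp only [mul_l0, mul_l1, mul_l2, mul_l3, add_l0, add_l1, add_l2, add_l3, map_add]
      <;> ring
  right_distrib a b c := by
    ext1 <;> simp only [mul_l0, mul_l1, mul_l2, mul_l3, add_l0, add_l1, add_l2, add_l3]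
      <;> ring
  zero_mul a := by ext1 <;> simp
  mul_zero a := by ext1 <;> simp
  mul_assoc a b c := mul_assoc' a b c
  one_mul a := by ext1 <;> simp
  mul_one a := by ext1 <;> simp
  natCast n := (n : A5 R)
  natCast_zero := by ext1 <;> simp
  natCast_succ n := by ext1 <;> simp
  intCast n := (n : A5 R)
  intCast_ofNat n := by ext1 <;> simp
  intCast_negSucc n := by ext1 <;> simp

/-- scalars. -/
def of (r : R) : A5 R := ⟨L5.of r, 0, 0, 0⟩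

/-- the generator `z`. -/
def z : A5 R := ⟨L5.z, 0, 0, 0⟩

/-- the generator `x`. -/
def x : A5 R := ⟨0, 1, 0, 0⟩

/-- functoriality. -/
def map {S : Type*} [CommRing S] (f : R →+* S) : A5 R →+* A5 S where
  toFun p := ⟨L5.map f p.l0, L5.map f p.l1, L5.map f p.l2, L5.map f p.l3⟩
  map_one' := by ext1 <;> simp
  map_mul' p q := by
    have h : ∀ u : L5 R, L5.map f (sg u) = sg (L5.map f u) := by
      intro u; ext <;> simp
    ext1 <;> simp only [mul_l0, mul_l1, mul_l2, mul_l3, map_add, map_sub, map_mul, h, map_ofNat]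
  map_zero' := by ext1 <;> simp
  map_add' p q := by ext1 <;> simp

end A5

end H77T2
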