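import Pool.Agent.Helper77.T2.FTab
import Pool.Agent.Helper65.FN.Cert

/-!
# T2: the certificates (data)
-/

namespace H77T2

open Pool.Agent.Helper65.FN

/-- the midpoints -/
def qm (m : Fin 5) : V6 := V6.add ov (V6.add (nv (wrep m)) ov)

/-- coefficients of the certificates on the walls -/
def ql : Fin 5 → List (Q6 × ℕ × ℕ)
  | 0 => [(⟨6, -7 / 3⟩, 3, 8),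
      (⟨6, -7 / 3⟩, 3, 10),
      (⟨6, -7 / 3⟩, 5, 10),
      (⟨6, -7 / 3⟩, 5, 11),
      (⟨6, -7 / 3⟩, 8, 11),
      (⟨6, -7 / 3⟩, 23, 25),
      (⟨6, -7 / 3⟩, 23, 31),
      (⟨6, -7 / 3⟩, 25, 27),
      (⟨6, -7 / 3⟩, 27, 29),
      (⟨6, -7 / 3⟩, 29, 31)]
  | 1 => [(⟨-172 / 573, 374 / 1719⟩, 1, 23),
      (⟨-172 / 573, 374 / 1719⟩, 1, 27),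
      (⟨44 / 573, 82 / 1719⟩, 4, 12),
      (⟨44 / 573, 82 / 1719⟩, 9, 16),
      (⟨368 / 955, -356 / 2865⟩, 11, 21),
      (⟨-344 / 955, 748 / 2865⟩, 11, 24),
      (⟨-248 / 573, 406 / 1719⟩, 12, 16),
      (⟨-248 / 573, 406 / 1719⟩, 17, 18),
      (⟨44 / 573, 82 / 1719⟩, 17, 47),
      (⟨44 / 573, 82 / 1719⟩, 18, 49),
      (⟨-172 / 573, 374 / 1719⟩, 21, 28),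
      (⟨-172 / 573, 374 / 1719⟩, 21, 30)]
  | 2 => [(⟨56040 / 37151, -19360 / 37151⟩, 2, 7),
      (⟨108308 / 111453, -29992 / 111453⟩, 2, 31),
      (⟨108308 / 111453, -29992 / 111453⟩, 7, 27),
      (⟨-104 / 383, 66 / 383⟩, 9, 10),
      (⟨-104 / 383, 66 / 383⟩, 9, 11),
      (⟨26134 / 37151, -5316 / 37151⟩, 9, 28),
      (⟨-43712 / 37151, 18018 / 37151⟩, 10, 27),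
      (⟨185948 / 111453, -53632 / 111453⟩, 10, 35),
      (⟨-43712 / 37151, 18018 / 37151⟩, 11, 31),
      (⟨185948 / 111453, -53632 / 111453⟩, 11, 37),
      (⟨76992 / 185755, -40814 / 557265⟩, 27, 28),
      (⟨76992 / 185755, -40814 / 557265⟩, 28, 31),
      (⟨-13552 / 37151, 6538 / 37151⟩, 42, 48)]
  | 3 => [(⟨-104 / 383, 66 / 383⟩, 1, 3),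
      (⟨-104 / 383, 66 / 383⟩, 1, 5),
      (⟨53678 / 185755, -38926 / 557265⟩, 1, 19),
      (⟨76992 / 185755, -40814 / 557265⟩, 2, 19),
      (⟨-77082 / 185755, 32198 / 185755⟩, 3, 21),
      (⟨312118 / 557265, -17402 / 557265⟩, 3, 24),
      (⟨-77082 / 185755, 32198 / 185755⟩, 5, 16),
      (⟨312118 / 557265, -17402 / 557265⟩, 5, 30),
      (⟨56040 / 37151, -19360 / 37151⟩, 6, 9),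
      (⟨108308 / 111453, -29992 / 111453⟩, 6, 49),
      (⟨108308 / 111453, -29992 / 111453⟩, 9, 39),
      (⟨-13552 / 37151, 6538 / 37151⟩, 17, 20),
      (⟨76992 / 185755, -40814 / 557265⟩, 19, 39)]
  | 4 => [(⟨788 / 57, -956 / 171⟩, 3, 18),
      (⟨-1516 / 57, 208 / 19⟩, 3, 38),
      (⟨-1516 / 57, 208 / 19⟩, 3, 41),
      (⟨7228 / 57, -2932 / 57⟩, 6, 11),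
      (⟨4472 / 57, -5464 / 171⟩, 6, 18),
      (⟨3156376 / 42389, -3845360 / 127167⟩, 13, 23),
      (⟨-74044 / 127167, 10284 / 42389⟩, 13, 36),
      (⟨-7212076 / 127167, 2948576 / 127167⟩, 13, 39),
      (⟨380828 / 42389, -148270 / 42389⟩, 16, 25),
      (⟨3373534 / 211945, -1362686 / 211945⟩, 16, 38),
      (⟨12 / 19, -8 / 57⟩, 28, 29),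
      (⟨-844020 / 42389, 1042886 / 127167⟩, 29, 30),
      (⟨25714294 / 635835, -3492722 / 211945⟩, 30, 38)]

def qe : Fin 5 → Q6
  | 0 => ⟨-68 / 5, 28 / 5⟩
  | 1 => ⟨508 / 573, -616 / 1719⟩
  | 2 => ⟨7336 / 37151, -2004 / 37151⟩
  | 3 => ⟨7336 / 37151, -2004 / 37151⟩
  | 4 => ⟨1052 / 19, -428 / 19⟩

def qy : Fin 5 → V6
  | 0 => ⟨⟨41 / 5, -131 / 30⟩, ⟨31 / 5, -61 / 30⟩, ⟨0, 0⟩, ⟨0, 0⟩, ⟨0, 0⟩, ⟨0, 0⟩⟩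
  | 1 => ⟨⟨-226 / 573, -508 / 1719⟩, ⟨166 / 955, -472 / 2865⟩, ⟨1352 / 8595, 782 / 8595⟩, ⟨3068 / 8595, -62 / 8595⟩, ⟨3068 / 8595, -62 / 8595⟩, ⟨1352 / 8595, 782 / 8595⟩⟩
  | 2 => ⟨⟨-38347 / 37151, -30661 / 111453⟩, ⟨1088917 / 928775, -1318289 / 2786325⟩, ⟨0, 0⟩, ⟨1034186 / 2786325, 302038 / 8358975⟩, ⟨1638068 / 2786325, -603056 / 8358975⟩, ⟨1034186 / 2786325, 302038 / 8358975⟩⟩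
  | 3 => ⟨⟨-55411 / 185755, -228563 / 557265⟩, ⟨-749847 / 928775, 660599 / 2786325⟩, ⟨-147652 / 2786325, 31676 / 928775⟩, ⟨0, 0⟩, ⟨350636 / 2786325, -1427812 / 8358975⟩, ⟨350636 / 2786325, -1427812 / 8358975⟩⟩
  | 4 => ⟨⟨37788428 / 635835, -15819808 / 635835⟩, ⟨-59500 / 5529, 8168 / 1843⟩, ⟨5437312 / 635835, -6611966 / 1907505⟩, ⟨-77308 / 33465, 32098 / 33465⟩, ⟨19800008 / 635835, -2668216 / 211945⟩, ⟨16905068 / 635835, -20865514 / 1907505⟩⟩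

/-- a Farkas certificate -/
structure FarD where
  s : Fin 52
  t : Fin 52
  l : List (ℕ × Q6)
  a : Q6
  b : Q6
  κ : Q6

/-- the certificates -/
def farD : ℕ → FarD
  | 0 => ⟨0, 1, [], ⟨1, 0⟩, ⟨1, 0⟩, ⟨1, 0⟩⟩
  | 1 => ⟨0, 2, [(11, ⟨47 / 239, -13 / 239⟩), (23, ⟨63 / 239, 8 / 239⟩), (27, ⟨63 / 239, 8 / 239⟩)], ⟨117 / 239, 49 / 239⟩, ⟨32 / 239, 42 / 239⟩, ⟨66 / 239, -3 / 239⟩⟩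
  | 2 => ⟨0, 12, [(10, ⟨2 / 5, -1 / 10⟩), (11, ⟨2 / 5, -1 / 10⟩), (27, ⟨1 / 10, 1 / 10⟩), (31, ⟨1 / 10, 1 / 10⟩)], ⟨3 / 5, 1 / 10⟩, ⟨1 / 2, 0⟩, ⟨0, 0⟩⟩
  | 3 => ⟨0, 13, [(11, ⟨8, -3⟩), (25, ⟨-7, 3⟩)], ⟨8, -3⟩, ⟨3, -1⟩, ⟨0, 0⟩⟩
  | 4 => ⟨0, 22, [(3, ⟨6 / 23, 1 / 46⟩), (5, ⟨1 / 23, 2 / 23⟩), (40, ⟨5 / 23, -3 / 46⟩)], ⟨8 / 23, 9 / 46⟩, ⟨2 / 23, 4 / 23⟩, ⟨11 / 23, -1 / 23⟩⟩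
  | 5 => ⟨0, 32, [(11, ⟨1 / 2, 0⟩), (29, ⟨1 / 2, 0⟩)], ⟨1 / 2, 0⟩, ⟨1 / 2, 0⟩, ⟨0, 0⟩⟩
  | 6 => ⟨0, 33, [(20, ⟨-1, 1 / 2⟩), (29, ⟨-1, 1 / 2⟩), (44, ⟨-1 / 5, 1 / 5⟩), (50, ⟨8 / 5, -3 / 5⟩)], ⟨6 / 5, -1 / 5⟩, ⟨-2 / 5, 2 / 5⟩, ⟨8 / 5, -3 / 5⟩⟩
  | 7 => ⟨2, 3, [(11, ⟨53 / 215, -17 / 215⟩), (17, ⟨39 / 215, 24 / 215⟩), (46, ⟨57 / 215, 2 / 215⟩)], ⟨8 / 215, 38 / 215⟩, ⟨87 / 215, 37 / 215⟩, ⟨66 / 215, -9 / 215⟩⟩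
  | 8 => ⟨2, 6, [(1, ⟨49 / 23, -17 / 23⟩), (4, ⟨-37 / 23, 18 / 23⟩), (30, ⟨29 / 23, -11 / 23⟩)], ⟨21 / 23, -4 / 23⟩, ⟨21 / 23, -4 / 23⟩, ⟨-18 / 23, 10 / 23⟩⟩
  | 9 => ⟨2, 13, [(11, ⟨29 / 86, 1 / 43⟩), (28, ⟨9 / 43, 1 / 172⟩), (30, ⟨9 / 43, 1 / 172⟩)], ⟨1 / 43, 6 / 43⟩, ⟨27 / 86, 23 / 172⟩, ⟨21 / 86, -3 / 86⟩⟩
  | 10 => ⟨2, 14, [(4, ⟨2 / 29, 8 / 87⟩), (26, ⟨7 / 29, -1 / 87⟩), (41, ⟨6 / 29, -5 / 87⟩)], ⟨4 / 29, 16 / 87⟩, ⟨9 / 29, 7 / 87⟩, ⟨14 / 29, -2 / 87⟩⟩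
  | 11 => ⟨2, 15, [(21, ⟨2 / 43, 29 / 258⟩), (24, ⟨6 / 43, 1 / 258⟩), (37, ⟨3 / 43, 11 / 129⟩), (47, ⟨16 / 43, -13 / 129⟩)], ⟨22 / 43, 3 / 43⟩, ⟨6 / 43, 22 / 129⟩, ⟨16 / 43, -13 / 129⟩⟩
  | 12 => ⟨2, 22, [(1, ⟨1 / 2, 0⟩), (49, ⟨1 / 2, 0⟩)], ⟨1 / 2, 0⟩, ⟨1 / 2, 0⟩, ⟨0, 0⟩⟩
  | 13 => ⟨2, 24, [(1, ⟨16 / 25, -1 / 25⟩), (21, ⟨9 / 25, 1 / 25⟩)], ⟨16 / 25, -1 / 25⟩, ⟨-1 / 5, 1 / 5⟩, ⟨0, 0⟩⟩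
  | 14 => ⟨2, 25, [(11, ⟨13 / 76, -5 / 76⟩), (23, ⟨9 / 76, -1 / 38⟩), (27, ⟨9 / 76, -1 / 38⟩)], ⟨13 / 76, 7 / 38⟩, ⟨21 / 76, 2 / 19⟩, ⟨45 / 76, 9 / 76⟩⟩
  | 15 => ⟨2, 29, [(4, ⟨21 / 145, 1 / 145⟩), (16, ⟨38 / 145, -12 / 145⟩), (23, ⟨61 / 145, -4 / 145⟩), (41, ⟨-17 / 145, 13 / 145⟩)], ⟨27 / 145, 22 / 145⟩, ⟨27 / 145, 22 / 145⟩, ⟨42 / 145, 2 / 145⟩⟩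
  | 16 => ⟨2, 32, [(11, ⟨26 / 71, -1 / 142⟩), (16, ⟨15 / 142, 6 / 71⟩), (41, ⟨33 / 142, -1 / 71⟩)], ⟨-4 / 71, 11 / 71⟩, ⟨39 / 142, 17 / 142⟩, ⟨21 / 71, -9 / 142⟩⟩
  | 17 => ⟨2, 33, [(1, ⟨1 / 5, -7 / 90⟩), (4, ⟨1 / 15, 1 / 15⟩), (24, ⟨4 / 15, 2 / 45⟩), (39, ⟨2 / 15, -1 / 30⟩)], ⟨1 / 3, 1 / 18⟩, ⟨2 / 15, 2 / 15⟩, ⟨1 / 3, 0⟩⟩
  | 18 => ⟨2, 34, [(21, ⟨9 / 10, -1 / 10⟩), (37, ⟨2 / 5, -1 / 10⟩), (47, ⟨-7 / 10, 3 / 10⟩), (48, ⟨2 / 5, -1 / 10⟩)], ⟨-1 / 5, 3 / 10⟩, ⟨1 / 2, 0⟩, ⟨0, 0⟩⟩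
  | 19 => ⟨2, 36, [(9, ⟨7 / 15, -2 / 15⟩), (17, ⟨-8 / 15, 11 / 30⟩), (27, ⟨-1 / 3, 1 / 6⟩), (35, ⟨7 / 15, -2 / 15⟩)], ⟨-1 / 3, 1 / 3⟩, ⟨-1 / 3, 1 / 3⟩, ⟨14 / 15, -4 / 15⟩⟩
  | 20 => ⟨2, 37, [(9, ⟨1 / 2, 0⟩), (47, ⟨1 / 2, 0⟩)], ⟨1 / 2, 0⟩, ⟨1 / 2, 0⟩, ⟨0, 0⟩⟩
  | 21 => ⟨2, 44, [(4, ⟨19 / 145, -6 / 145⟩), (8, ⟨21 / 145, 1 / 145⟩), (24, ⟨21 / 145, 1 / 145⟩), (47, ⟨21 / 145, 1 / 145⟩)], ⟨46 / 145, 16 / 145⟩, ⟨5 / 29, 3 / 29⟩, ⟨63 / 145, 3 / 145⟩⟩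
  | 22 => ⟨2, 45, [(9, ⟨-9 / 23, 5 / 23⟩), (28, ⟨29 / 23, -11 / 23⟩), (30, ⟨49 / 23, -17 / 23⟩), (35, ⟨-28 / 23, 13 / 23⟩)], ⟨21 / 23, -4 / 23⟩, ⟨21 / 23, -4 / 23⟩, ⟨-18 / 23, 10 / 23⟩⟩
  | 23 => ⟨12, 13, [(28, ⟨-7, 3⟩), (42, ⟨8, -3⟩)], ⟨3, -1⟩, ⟨8, -3⟩, ⟨0, 0⟩⟩
  | 24 => ⟨12, 14, [(7, ⟨19 / 71, 1 / 71⟩), (10, ⟨19 / 71, 1 / 71⟩), (26, ⟨7 / 71, -3 / 142⟩), (28, ⟨7 / 71, -3 / 142⟩)], ⟨17 / 71, 13 / 142⟩, ⟨17 / 71, 13 / 142⟩, ⟨19 / 71, 1 / 71⟩⟩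
  | 25 => ⟨12, 19, [(7, ⟨1, -1 / 3⟩), (9, ⟨1 / 3, 0⟩), (31, ⟨1 / 3, 0⟩), (45, ⟨-2 / 3, 1 / 3⟩)], ⟨-1 / 3, 1 / 3⟩, ⟨-1 / 3, 1 / 3⟩, ⟨0, 0⟩⟩
  | 26 => ⟨12, 20, [(5, ⟨9 / 25, -1 / 25⟩), (9, ⟨9 / 25, -1 / 25⟩)], ⟨7 / 25, 2 / 25⟩, ⟨7 / 25, 2 / 25⟩, ⟨7 / 25, 2 / 25⟩⟩
  | 27 => ⟨12, 22, [(2, ⟨13 / 73, -4 / 73⟩), (9, ⟨17 / 73, 6 / 73⟩), (35, ⟨15 / 73, 1 / 73⟩)], ⟨19 / 73, 11 / 73⟩, ⟨4 / 73, 10 / 73⟩, ⟨28 / 73, -3 / 73⟩⟩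
  | 28 => ⟨12, 23, [(2, ⟨23 / 101, -2 / 101⟩), (11, ⟨23 / 101, -2 / 101⟩), (27, ⟨29 / 101, 10 / 303⟩), (48, ⟨3 / 101, 8 / 303⟩)], ⟨25 / 101, 11 / 101⟩, ⟨15 / 101, 40 / 303⟩, ⟨23 / 101, -2 / 101⟩⟩
  | 29 => ⟨12, 26, [(28, ⟨-7, 3⟩), (37, ⟨8, -3⟩)], ⟨3, -1⟩, ⟨8, -3⟩, ⟨0, 0⟩⟩
  | 30 => ⟨12, 29, [(0, ⟨-6 / 67, 15 / 134⟩), (10, ⟨49 / 134, -11 / 134⟩), (11, ⟨49 / 134, -11 / 134⟩)], ⟨26 / 67, 1 / 67⟩, ⟨29 / 134, 7 / 67⟩, ⟨24 / 67, 7 / 134⟩⟩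
  | 31 => ⟨12, 32, [(10, ⟨8 / 47, -7 / 141⟩), (11, ⟨12 / 47, 13 / 141⟩), (28, ⟨9 / 47, -2 / 141⟩)], ⟨11 / 47, 8 / 141⟩, ⟨4 / 47, 20 / 141⟩, ⟨18 / 47, -4 / 141⟩⟩
  | 32 => ⟨12, 33, [(7, ⟨5, -2⟩), (24, ⟨-2, 5 / 6⟩), (26, ⟨-4, 5 / 3⟩), (43, ⟨-1, 1 / 2⟩)], ⟨-2, 1⟩, ⟨-4, 11 / 6⟩, ⟨3, -1⟩⟩
  | 33 => ⟨12, 34, [(27, ⟨1 / 2, 0⟩), (37, ⟨1 / 2, 0⟩)], ⟨1 / 2, 0⟩, ⟨1 / 2, 0⟩, ⟨0, 0⟩⟩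
  | 34 => ⟨12, 40, [(9, ⟨81 / 431, 4 / 431⟩), (21, ⟨47 / 862, -3 / 862⟩), (27, ⟨217 / 862, 16 / 431⟩), (49, ⟨47 / 431, -3 / 431⟩)], ⟨207 / 862, 53 / 431⟩, ⟨105 / 862, 85 / 862⟩, ⟨171 / 431, -31 / 862⟩⟩
  | 35 => ⟨12, 41, [(2, ⟨10 / 47, -1 / 47⟩), (11, ⟨10 / 47, -1 / 47⟩), (18, ⟨34 / 235, 6 / 235⟩), (28, ⟨51 / 235, 9 / 235⟩)], ⟨7 / 47, 4 / 47⟩, ⟨52 / 235, 23 / 235⟩, ⟨10 / 47, -1 / 47⟩⟩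
  | 36 => ⟨12, 43, [(7, ⟨41 / 134, -1 / 134⟩), (9, ⟨41 / 134, -1 / 134⟩), (15, ⟨5 / 134, 21 / 268⟩), (31, ⟨13 / 134, 1 / 268⟩)], ⟨7 / 67, 8 / 67⟩, ⟨7 / 67, 8 / 67⟩, ⟨17 / 67, -9 / 134⟩⟩
  | 37 => ⟨12, 44, [(7, ⟨11 / 46, -1 / 46⟩), (10, ⟨11 / 46, -1 / 46⟩), (15, ⟨7 / 46, 5 / 92⟩), (31, ⟨3 / 23, 1 / 92⟩)], ⟨4 / 23, 9 / 92⟩, ⟨4 / 23, 9 / 92⟩, ⟨11 / 46, -1 / 46⟩⟩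
  | 38 => ⟨22, 23, [(39, ⟨4 / 29, 1 / 58⟩), (40, ⟨4 / 29, 1 / 58⟩), (46, ⟨4 / 29, 1 / 58⟩), (49, ⟨4 / 29, 1 / 58⟩)], ⟨7 / 29, 9 / 58⟩, ⟨7 / 29, 9 / 58⟩, ⟨13 / 29, -2 / 29⟩⟩
  | 39 => ⟨22, 25, [(3, ⟨14 / 57, -1 / 57⟩), (6, ⟨14 / 57, -1 / 57⟩), (19, ⟨5 / 57, 1 / 57⟩), (50, ⟨10 / 57, 2 / 57⟩)], ⟨11 / 57, 2 / 19⟩, ⟨16 / 57, 7 / 57⟩, ⟨14 / 57, -1 / 57⟩⟩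
  | 40 => ⟨22, 26, [(1, ⟨59 / 139, 1 / 139⟩), (2, ⟨-29 / 139, 16 / 139⟩), (24, ⟨67 / 139, -13 / 139⟩)], ⟨9 / 139, 19 / 139⟩, ⟨9 / 139, 19 / 139⟩, ⟨42 / 139, -4 / 139⟩⟩
  | 41 => ⟨22, 32, [(3, ⟨11 / 46, -1 / 46⟩), (6, ⟨11 / 46, -1 / 46⟩), (16, ⟨7 / 46, 5 / 92⟩), (30, ⟨3 / 23, 1 / 92⟩)], ⟨4 / 23, 9 / 92⟩, ⟨4 / 23, 9 / 92⟩, ⟨11 / 46, -1 / 46⟩⟩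
  | 42 => ⟨22, 36, [(17, ⟨16 / 25, -1 / 25⟩), (19, ⟨9 / 25, 1 / 25⟩)], ⟨-1 / 5, 1 / 5⟩, ⟨16 / 25, -1 / 25⟩, ⟨0, 0⟩⟩
  | 43 => ⟨22, 37, [(1, ⟨50 / 139, -18 / 139⟩), (2, ⟨-29 / 139, 16 / 139⟩), (9, ⟨9 / 139, 19 / 139⟩), (24, ⟨67 / 139, -13 / 139⟩)], ⟨9 / 139, 19 / 139⟩, ⟨9 / 139, 19 / 139⟩, ⟨42 / 139, -4 / 139⟩⟩
  | 44 => ⟨22, 38, [(4, ⟨7 / 145, 9 / 290⟩), (6, ⟨33 / 145, 1 / 290⟩), (16, ⟨32 / 145, -21 / 290⟩), (39, ⟨-6 / 145, 13 / 290⟩)], ⟨28 / 145, 18 / 145⟩, ⟨2 / 145, 22 / 145⟩, ⟨79 / 145, -1 / 145⟩⟩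
  | 45 => ⟨22, 40, [(20, ⟨1 / 2, 0⟩), (49, ⟨1 / 2, 0⟩)], ⟨1 / 2, 0⟩, ⟨1 / 2, 0⟩, ⟨0, 0⟩⟩
  | 46 => ⟨22, 41, [(1, ⟨50 / 139, -18 / 139⟩), (4, ⟨-20 / 139, 35 / 139⟩), (30, ⟨67 / 139, -13 / 139⟩)], ⟨9 / 139, 19 / 139⟩, ⟨9 / 139, 19 / 139⟩, ⟨42 / 139, -4 / 139⟩⟩
  | 47 => ⟨22, 42, [(17, ⟨-3 / 43, 11 / 129⟩), (35, ⟨7 / 43, 1 / 43⟩), (36, ⟨10 / 43, -8 / 129⟩), (45, ⟨7 / 43, 1 / 43⟩)], ⟨19 / 43, 2 / 129⟩, ⟨6 / 43, 7 / 43⟩, ⟨22 / 43, -3 / 43⟩⟩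
  | 48 => ⟨22, 43, [(19, ⟨9 / 25, 1 / 25⟩), (24, ⟨16 / 25, -1 / 25⟩)], ⟨-1 / 5, 1 / 5⟩, ⟨16 / 25, -1 / 25⟩, ⟨0, 0⟩⟩
  | 49 => ⟨32, 33, [(4, ⟨5 / 43, -4 / 129⟩), (6, ⟨9 / 43, 10 / 129⟩), (14, ⟨23 / 129, -3 / 43⟩), (29, ⟨28 / 129, 4 / 129⟩)], ⟨4 / 43, 14 / 129⟩, ⟨35 / 129, 5 / 129⟩, ⟨12 / 43, -1 / 129⟩⟩
  | 50 => ⟨32, 34, [(10, ⟨38 / 139, -3 / 139⟩), (18, ⟨2 / 139, 7 / 278⟩), (23, ⟨23 / 139, 11 / 278⟩)], ⟨10 / 139, 35 / 278⟩, ⟨10 / 139, 35 / 278⟩, ⟨76 / 139, -6 / 139⟩⟩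
  | 51 => ⟨32, 36, [(3, ⟨15 / 19, -10 / 57⟩), (11, ⟨-7 / 19, 11 / 57⟩), (13, ⟨17 / 19, -29 / 114⟩), (25, ⟨8 / 19, -17 / 114⟩)], ⟨15 / 19, -10 / 57⟩, ⟨15 / 19, -10 / 57⟩, ⟨-14 / 19, 22 / 57⟩⟩
  | 52 => ⟨32, 37, [(10, ⟨135 / 643, -12 / 643⟩), (18, ⟨53 / 643, -19 / 643⟩), (28, ⟨184 / 643, -47 / 1286⟩), (48, ⟨-20 / 643, 75 / 1286⟩)], ⟨42 / 643, 82 / 643⟩, ⟨144 / 643, 103 / 1286⟩, ⟨291 / 643, 17 / 643⟩⟩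
  | 53 => ⟨32, 39, [(3, ⟨5 / 19, -1 / 19⟩), (6, ⟨5 / 19, -1 / 19⟩), (16, ⟨1 / 5, 2 / 15⟩), (29, ⟨1 / 95, 7 / 285⟩)], ⟨17 / 95, 8 / 95⟩, ⟨1 / 19, 7 / 57⟩, ⟨5 / 19, -1 / 19⟩⟩
  | 54 => ⟨32, 40, [(16, ⟨13 / 115, 3 / 115⟩), (23, ⟨28 / 115, -16 / 345⟩), (29, ⟨27 / 115, 1 / 345⟩), (46, ⟨13 / 115, 3 / 115⟩)], ⟨18 / 115, 13 / 115⟩, ⟨33 / 115, 14 / 345⟩, ⟨34 / 115, -1 / 115⟩⟩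
  | 55 => ⟨32, 42, [(11, ⟨8 / 19, 1 / 57⟩), (13, ⟨17 / 19, -29 / 114⟩), (25, ⟨8 / 19, -17 / 114⟩)], ⟨15 / 19, -10 / 57⟩, ⟨15 / 19, -10 / 57⟩, ⟨-14 / 19, 22 / 57⟩⟩
  | 56 => ⟨32, 46, [(0, ⟨-2 / 3, 1 / 3⟩), (3, ⟨1, -1 / 3⟩), (11, ⟨1, -1 / 3⟩), (16, ⟨-1 / 3, 1 / 3⟩)], ⟨1 / 3, 0⟩, ⟨1 / 3, 0⟩, ⟨0, 0⟩⟩
  | 57 => ⟨32, 47, [(2, ⟨11 / 58, -1 / 348⟩), (18, ⟨9 / 58, 59 / 696⟩), (23, ⟨7 / 116, 1 / 348⟩), (41, ⟨5 / 29, -5 / 232⟩)], ⟨5 / 58, 65 / 696⟩, ⟨23 / 116, 77 / 696⟩, ⟨49 / 116, -11 / 174⟩⟩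
  | 58 => ⟨32, 50, [(3, ⟨1 / 5, 0⟩), (6, ⟨1 / 5, 0⟩), (25, ⟨1 / 5, 0⟩), (29, ⟨1 / 5, 0⟩)], ⟨1 / 5, 1 / 15⟩, ⟨1 / 5, 1 / 15⟩, ⟨1 / 5, 0⟩⟩
  | _ => ⟨0, 1, [], ⟨1, 0⟩, ⟨1, 0⟩, ⟨1, 0⟩⟩

/-- a ridge cycle: `K s * ∏ K l = K t * q v`, with the coefficients of the intermediate points -/
structure CycD where
  s : Fin 52
  t : Fin 52
  l : List (Fin 52)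
  v : Q20
  c : List (ℕ × ℕ)

/-- the word of the cycle -/
def CycD.w1 (d : CycD) : List ℕ := (d.s :: d.l).flatMap wK

/-- the second word -/
def CycD.w2 (d : CycD) : List ℕ := wK d.t ++ [lt d.v]

/-- check of the cones -/
def CycD.chkC (d : CycD) : Bool :=
  decide (d.c.length + 1 = d.l.length) &&
  allb (fun i => chkCone d.s d.t (apV ((d.s :: d.l.take (i + 1)).flatMap wK) ov)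
    ⟨(d.c.getD i (0, 0)).1, 0⟩ ⟨(d.c.getD i (0, 0)).2, 0⟩) d.c.length

/-- the cycles -/
def cycD : ℕ → CycD
  | 0 => ⟨0, 3, [28], ⟨8⟩, []⟩
  | 1 => ⟨0, 23, [2], ⟨4⟩, []⟩
  | 2 => ⟨2, 4, [46], ⟨4⟩, []⟩
  | 3 => ⟨2, 11, [6, 9, 4, 9], ⟨0⟩, [(2, 1), (2, 2), (1, 2)]⟩
  | 4 => ⟨2, 12, [19, 8], ⟨4⟩, [(1, 1)]⟩
  | 5 => ⟨2, 17, [13, 11], ⟨4⟩, [(1, 1)]⟩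
  | 6 => ⟨2, 21, [0], ⟨0⟩, []⟩
  | 7 => ⟨2, 23, [29, 10], ⟨4⟩, [(1, 1)]⟩
  | 8 => ⟨2, 28, [22, 11], ⟨4⟩, [(1, 1)]⟩
  | 9 => ⟨2, 35, [45, 5], ⟨16⟩, [(1, 1)]⟩
  | 10 => ⟨2, 46, [32, 10], ⟨0⟩, [(1, 1)]⟩
  | 11 => ⟨2, 47, [5], ⟨0⟩, []⟩
  | 12 => ⟨12, 27, [49], ⟨0⟩, []⟩
  | 13 => ⟨12, 28, [19, 14], ⟨8⟩, [(1, 1)]⟩
  | 14 => ⟨12, 35, [24], ⟨12⟩, []⟩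
  | 15 => ⟨12, 42, [20], ⟨4⟩, []⟩
  | 16 => ⟨12, 45, [33, 30], ⟨16⟩, [(1, 1)]⟩
  | 17 => ⟨22, 24, [39], ⟨4⟩, []⟩
  | 18 => ⟨22, 33, [49, 12], ⟨16⟩, [(1, 1)]⟩
  | 19 => ⟨22, 39, [23], ⟨8⟩, []⟩
  | 20 => ⟨32, 38, [35], ⟨0⟩, []⟩
  | 21 => ⟨32, 41, [36], ⟨0⟩, []⟩
  | _ => ⟨0, 1, [], ⟨0⟩, []⟩

end H77T2
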