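import Pool.Agent.Helper77.T2.CData

/-!
# T2: kernel checks
-/

namespace H77T2

open Pool.Agent.Helper65.FN

theorem cycM_chkA : ∀ r, 0 ≤ r → r < 6 → chkM (cycD r).w1 (cycD r).w2 = true := by
  have h : ∀ r < 6, chkM (cycD (0 + r)).w1 (cycD (0 + r)).w2 = true := by decide +kernel
  intro r h1 h2
  have h3 := h (r - 0) (by omega)
  rwa [Nat.add_sub_cancel' h1] at h3

end H77T2
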