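import Pool.Agent.Helper77.T2.CData

/-!
# T2: kernel checks
-/

namespace H77T2

open Pool.Agent.Helper65.FN

theorem cone_chk : ∀ r < 22, (cycD r).chkC = true := by decide +kernel

end H77T2
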