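import Pool.Agent.Helper77.T2.CData

/-!
# T2: kernel checks
-/

namespace H77T2

open Pool.Agent.Helper65.FN

theorem F_z : allb (fun a => chkF [4, a] [qmulN 4 a]) 20 = true := by decide +kernel

end H77T2
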