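import Pool.Agent.Helper77.T2.CData

/-!
# T2: kernel checks
-/

namespace H77T2

open Pool.Agent.Helper65.FN

theorem M_z : allb (fun a => chkM [4, a] [qmulN 4 a]) 20 = true := by decide +kernel

theorem nrm_MT : ∀ n < 25, V6.B ((MT n).mulVec ov) ((MT n).mulVec ov) = 1 := by
  decide +kernel

theorem fix_q : ∀ a : Q20, (MT (lt a)).mulVec ov = ov := by decide +kernel

theorem MT_one_imp : ∀ a : Q20, MT (lt a) = M6.one → a = 1 := by decide +kernel

end H77T2
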