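import Pool.Agent.Helper77.T2.CData

/-!
# T2: kernel checks
-/

namespace H77T2

open Pool.Agent.Helper65.FN

theorem M_x : allb (fun a => chkM [1, a] [qmulN 1 a]) 20 = true := by decide +kernel

theorem M_one : chkM [0] [] = true := by decide +kernel

theorem MT_zx : ∀ n < 20, evM (List.replicate (n / 4) 4 ++ List.replicate (n % 4) 1) = MT n := by
  decide +kernel

end H77T2
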