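import Pool.Agent.Helper77.T2.CData

/-!
# T2: kernel checks
-/

namespace H77T2

open Pool.Agent.Helper65.FN

theorem M_st : ∀ (m : Fin 5) (s : Q20), stOK m s = true →
    chkM [lt s, 20 + m] [20 + m, lt (stp m s)] = true := by decide +kernel

theorem M_inv : ∀ m : Fin 5, chkM [20 + m, lt (wu (iw m)), 20 + (wm (iw m) : ℕ),
    lt (wu (iw m))⁻¹, lt (iv m)] [] = true := by decide +kernel

end H77T2
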