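import Pool.Agent.Helper77.T2.CData

/-!
# T2: kernel checks
-/

namespace H77T2

open Pool.Agent.Helper65.FN

theorem nv_chk : ∀ w : Fin 52, apV (wK w) ov = V6.add (nv w) ov := by decide +kernel

end H77T2
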