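import Pool.Agent.Helper77.T2.CData

/-!
# T2: kernel checks
-/

namespace H77T2

open Pool.Agent.Helper65.FN

theorem facet_chk : ∀ m : Fin 5, chkFacet (wrep m) (qm m) = true := by decide +kernel

theorem int_chk : allN (fun w => (V6.B ov (nv w)).ps) 52 = true := by decide +kernel

theorem P_chk : okL [(0, 1), (1, 1)] = true ∧
    Pool.Agent.Helper65.FN.comb [(0, 1), (1, 1)] = ov := by
  constructor <;> decide +kernel

end H77T2
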