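import Pool.Agent.Helper77.T2.CData

/-!
# T2: kernel checks
-/

namespace H77T2

open Pool.Agent.Helper65.FN

theorem Q_chk : ∀ m : Fin 5, chkQ (wrep m) (ql m) (qe m) (qy m) = true := by decide +kernel

theorem e_chk : ∀ m : Fin 5, (qe m - ⟨1 / 144, 0⟩).nn = true := by decide +kernel

end H77T2
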