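import Pool.Agent.Helper77.T2.CData

/-!
# T2: kernel checks
-/

namespace H77T2

open Pool.Agent.Helper65.FN

theorem far_chk : ∀ r < 59, chkFarkas (farD r).s (farD r).t (farD r).l (farD r).a (farD r).b
    (farD r).κ = true := by decide +kernel

end H77T2
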