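import Pool.Agent.Helper77.T2.Facts
import Pool.Agent.Helper77.T2.FRel

/-!
# T2: the ridge cycles
-/

namespace H77T2

open Matrix Pool.Agent.Helper84.NG Pool.Agent.Helper74.TF Pool.Agent.Helper65.FN
  Pool.Agent.Helper65.L1

/-- the side pairings with labels -/
noncomputable def setupE : Setup (↥(IsomHyp 5) × WP (Fin 405) (GL (Fin 2) ℤ)) :=
  setupG.prod setupF

/-- letters with labels -/
noncomputable def LL (n : ℕ) : ↥(IsomHyp 5) × WP (Fin 405) (GL (Fin 2) ℤ) := (LG n, LW n)

theorem LL_prod (l : List ℕ) : (l.map LL).prod = ((l.map LG).prod, (l.map LW).prod) := by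
  induction l with
  | nil => rfl
  | cons n l ih =>
    rw [List.map_cons, List.prod_cons, ih]
    simp [LL]

theorem qE_apply (a : Q20) : setupE.q a = LL (lt a) := rfl

theorem KE_eq (w : Fin 52) : setupE.K w = ((wK w).map LL).prod := by
  show setupE.q (wu w) * LL (20 + wm w) * (setupE.q (wu w))⁻¹ = _
  rw [← map_inv, qE_apply, qE_apply]
  simp [wK, mul_assoc]

theorem KE_prod (l : List (Fin 52)) :
    (l.map setupE.K).prod = ((l.flatMap wK).map LL).prod := by
  induction l with
  | nil => rfl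
  | cons w l ih =>
    rw [List.map_cons, List.prod_cons, ih, List.flatMap_cons, List.map_append, List.prod_append,
      KE_eq]

theorem ext_K (w : Fin 52) : L.ext.K w = setupE.K w := rfl

theorem qE_mem (a : Q20) : setupE.q a ∈ L.ext.E0 :=
  ⟨⟨qG a, ⟨a, rfl⟩⟩, Prod.ext rfl (phi0_apply a)⟩

theorem isTabE : IsTab L.ext := ⟨isTab.B, isTab.x0, isTab.n⟩

theorem flatMap_lt (l : List (Fin 52)) : ∀ n ∈ l.flatMap wK, n < 25 := by
  intro n hn
  rw [List.mem_flatMap] at hn
  obtain ⟨w, -, hw⟩ := hn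
  exact wK_lt w n hw

/-- a checked cycle is a cycle -/
theorem CycD.cyc (d : CycD) (h1 : chkM d.w1 d.w2 = true) (h2 : chkF d.w1 d.w2 = true)
    (h3 : d.chkC = true) : L.ext.Cyc d.s d.t := by
  unfold CycD.chkC at h3
  rw [Bool.and_eq_true] at h3
  obtain ⟨h4, h5⟩ := h3
  have h4' := of_decide_eq_true h4
  refine L.ext.cyc_of_list d.l (qE_mem d.v) ?_ ?_
  · show setupE.K d.s * (d.l.map setupE.K).prod = setupE.K d.t * setupE.q d.v
    rw [← List.prod_cons, ← List.map_cons, KE_prod, KE_eq, qE_apply]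
    have e : ((wK d.t).map LL).prod * LL (lt d.v) = ((wK d.t ++ [lt d.v]).map LL).prod := by
      rw [List.map_append, List.prod_append]
      simp
    rw [e, LL_prod, LL_prod]
    exact Prod.ext (rel_of_chkM h1) (rel_of_chkF h2)
  · intro i hi hi'
    have h6 := allb_spec h5 (i - 1) (by omega)
    rw [Nat.sub_add_cancel hi] at h6
    refine inCone_of_chk isTabE ?_ h6
    show rhoV (setupE.K d.s * ((d.l.take i).map setupE.K).prod).1 o6 = _
    rw [← List.prod_cons, ← List.map_cons, KE_prod, LL_prod]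
    exact apV_rho _ (flatMap_lt _)

end H77T2
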