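import Pool.Agent.Helper77.T2.GRel
import Pool.Agent.Helper77.T2.ChkNa
import Pool.Agent.Helper77.T2.ChkNb
import Pool.Agent.Helper77.T2.ChkNc
import Pool.Agent.Helper77.T2.ChkNd

/-!
# T2: facets, boundedness, pairs of walls without ridge
-/

namespace H77T2

open Matrix Pool.Agent.Helper84.NG Pool.Agent.Helper74.TF Pool.Agent.Helper65.FN
  Pool.Agent.Helper65.L1

theorem wK_lt (w : Fin 52) : ∀ n ∈ wK w, n < 25 := by
  intro n hn
  simp only [wK, List.mem_cons, List.not_mem_nil, or_false] at hn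
  rcases hn with rfl | rfl | rfl
  · exact lt_lt _
  · omega
  · exact lt_lt _

theorem K_eq (w : Fin 52) : setupG.K w = ((wK w).map LG).prod := by
  show qG (wu w) * LG (20 + wm w) * (qG (wu w))⁻¹ = _
  rw [← map_inv, qG_apply, qG_apply]
  simp [wK, mul_assoc]

theorem apV_rho (l : List ℕ) (hl : ∀ n ∈ l, n < 25) :
    rhoV ((l.map LG).prod) o6 = (apV l ov).toR := by
  rw [rhoV_prod l hl, evM_toR, apV_toR, ov_toR]

theorem isTab : IsTab D where
  B := fun _ _ => rfl
  x0 := rfl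
  n := by
    intro w
    show rhoV (setupG.K w) o6 - o6 = _
    rw [K_eq, apV_rho _ (wK_lt w), nv_chk, V6.toR_add, ov_toR]
    abel

theorem q_mem (u : Q20) : setupG.q u ∈ D.E0 := ⟨u, rfl⟩

theorem ha : ∀ w, IsFacet D.N D.P w := isTab.facets setupG (fun _ => rfl) q_mem qm facet_chk

theorem hint : ∀ w, 0 < D.N w D.x0 := isTab.int int_chk

theorem hP : ∀ x, (∀ w, 0 ≤ D.N w x) → 0 ≤ D.P x := fun _ hx =>
  isTab.P_nonneg P_chk.1 P_chk.2 hx

theorem hbd : ∀ x : Fin 6 → ℝ, (∀ w, 0 ≤ D.N w x) → InC D.B D.P 12 x := by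
  refine isTab.bounded setupG (fun _ => rfl) q_mem hint hP ql qe qy Q_chk (by norm_num) ?_
  intro m
  have h := Q6.nonneg_of_nn (e_chk m)
  rw [map_sub, Q6.toR_mk (1 / 144) 0] at h
  push_cast at h
  linarith

theorem far_not {r : ℕ} (hr : r < 59) : ¬ IsRidge D.N D.P (farD r).s (farD r).t :=
  isTab.not_ridge (far_chk r hr)

end H77T2
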