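import Pool.Agent.Helper77.T2.ChkMa
import Pool.Agent.Helper77.T2.ChkMb
import Pool.Agent.Helper77.T2.ChkMc
import Pool.Agent.Helper77.T2.Gens
import Pool.Agent.Helper84.NG.Ident
import Pool.Agent.Helper74.TF.Defs

/-!
# T2: the side pairings as isometries
-/

namespace H77T2

open Matrix Pool.Agent.Helper84.NG Pool.Agent.Helper74.TF

/-- the action of the isometry group on `V` in the coordinates of `B6` -/
noncomputable def rhoV : ↥(IsomHyp 5) →* ((Fin 6 → ℝ) →ₗ[ℝ] (Fin 6 → ℝ)) where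
  toFun g := CC.symm.toLinearMap.comp ((Matrix.mulVecLin g.1.1).comp CC.toLinearMap)
  map_one' := by
    apply LinearMap.ext
    intro v
    simp
  map_mul' g h := by
    apply LinearMap.ext
    intro v
    simp [Matrix.mulVec_mulVec]

theorem CC_rhoV (g : ↥(IsomHyp 5)) (v : Fin 6 → ℝ) : CC (rhoV g v) = g.1.1 *ᵥ CC v := by
  show CC (CC.symm (g.1.1 *ᵥ CC v)) = _
  rw [LinearEquiv.apply_symm_apply]

theorem rhoV_inj {g h : ↥(IsomHyp 5)} (H : ∀ v, rhoV g v = rhoV h v) : g = h := by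
  apply Subtype.ext
  apply Units.ext
  apply Matrix.ext_of_mulVec_single
  intro i
  obtain ⟨v, hv⟩ := CC.surjective (Pi.single i 1 : Fin (5 + 1) → ℝ)
  rw [← hv, ← CC_rhoV, ← CC_rhoV, H]

theorem B6_rhoV (g : ↥(IsomHyp 5)) (v w : Fin 6 → ℝ) : B6 (rhoV g v) (rhoV g w) = B6 v w := by
  rw [← CC_mink, ← CC_mink, CC_rhoV, CC_rhoV]
  exact g.2.1 _ _

/-- the isometry of a rational unit -/
noncomputable def RQ : (A5 ℚ)ˣ →* ↥(IsomHyp 5) := rhoQ.codRestrict (IsomHyp 5) rhoQ_mem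

theorem RQ_val (g : (A5 ℚ)ˣ) : (RQ g).1 = rhoQ g := rfl

/-- identification of the isometry of a unit with a matrix -/
theorem rhoV_RQ {g : (A5 ℚ)ˣ} {n : ℝ} (hn : 0 < n) {M : M6}
    (hM : ∀ v, T (Pool.Agent.Helper74.TF.toR g.1) v = n • M.toR.mulVec v)
    (h1 : V6.B (M.mulVec ov) (M.mulVec ov) = 1) (v : Fin 6 → ℝ) :
    rhoV (RQ g) v = M.toR.mulVec v := by
  have h2 : n ^ 2 = nr (Pool.Agent.Helper74.TF.toR g.1) := by
    unfold nr
    rw [hM, ← ov_toR, ← M6.toR_mulVec]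
    have h3 : B6 (n • (M.mulVec ov).toR) (n • (M.mulVec ov).toR) =
        n ^ 2 * B6 (M.mulVec ov).toR (M.mulVec ov).toR := by
      unfold B6
      simp only [Pi.smul_apply, smul_eq_mul]
      ring
    rw [h3, ← V6.toR_B, h1, map_one, mul_one]
  have h4 := rhoQ_apply hn h2 v
  rw [hM, smul_smul, inv_mul_cancel₀ hn.ne', one_smul] at h4
  apply CC.injective
  rw [CC_rhoV, RQ_val, h4]

/-- the isometry of a letter -/
noncomputable def LG (n : ℕ) : ↥(IsomHyp 5) :=
  if n < 20 then RQ uz ^ (n / 4) * RQ ux ^ (n % 4)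
  else if h : n - 20 < 5 then RQ (uk ⟨n - 20, h⟩) else 1

theorem rhoV_uz (v : Fin 6 → ℝ) : rhoV (RQ uz) v = (MT 4).toR.mulVec v :=
  rhoV_RQ one_pos (fun v => by rw [one_smul]; exact T_uz v) (nrm_MT 4 (by norm_num)) v

theorem rhoV_ux (v : Fin 6 → ℝ) : rhoV (RQ ux) v = (MT 1).toR.mulVec v :=
  rhoV_RQ s54_pos T_ux (nrm_MT 1 (by norm_num)) v

theorem rhoV_uk (m : Fin 5) (v : Fin 6 → ℝ) :
    rhoV (RQ (uk m)) v = (MT (20 + m)).toR.mulVec v := by
  refine rhoV_RQ ?_ (T_uk m) (nrm_MT (20 + m) (by omega)) v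
  fin_cases m <;> norm_num

theorem rhoV_pow {g : ↥(IsomHyp 5)} {M : Matrix (Fin 6) (Fin 6) ℝ}
    (h : ∀ v, rhoV g v = M.mulVec v) (k : ℕ) (v : Fin 6 → ℝ) :
    rhoV (g ^ k) v = (M ^ k).mulVec v := by
  induction k generalizing v with
  | zero => simp
  | succ k ih =>
    rw [pow_succ, map_mul, Module.End.mul_apply, h, ih, pow_succ, Matrix.mulVec_mulVec]

theorem rhoV_LG {n : ℕ} (hn : n < 25) (v : Fin 6 → ℝ) :
    rhoV (LG n) v = (MT n).toR.mulVec v := by
  unfold LG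
  split_ifs with h1 h2
  · have h3 := congrArg M6.toR (MT_zx n h1)
    rw [evM_toR, List.map_append, List.prod_append, List.map_replicate, List.map_replicate,
      List.prod_replicate, List.prod_replicate] at h3
    rw [map_mul, Module.End.mul_apply, rhoV_pow rhoV_ux, rhoV_pow rhoV_uz, Matrix.mulVec_mulVec,
      h3]
  · rw [rhoV_uk ⟨n - 20, h2⟩]
    congr 4
    simp only
    omega
  · omega

theorem rhoV_prod (l : List ℕ) (hl : ∀ n ∈ l, n < 25) (v : Fin 6 → ℝ) :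
    rhoV ((l.map LG).prod) v = (evM l).toR.mulVec v := by
  induction l generalizing v with
  | nil => simp [evM, M6.toR_one]
  | cons n l ih =>
    rw [List.map_cons, List.prod_cons, map_mul, Module.End.mul_apply,
      ih (fun m hm => hl m (List.mem_cons_of_mem _ hm)), rhoV_LG (hl n List.mem_cons_self), evM,
      M6.toR_mul, Matrix.mulVec_mulVec]

theorem rel_of_chkM {l l' : List ℕ} (h : chkM l l' = true) :
    (l.map LG).prod = (l'.map LG).prod := by
  unfold chkM at h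
  rw [Bool.and_eq_true, Bool.and_eq_true, List.all_eq_true, List.all_eq_true] at h
  obtain ⟨⟨h1, h2⟩, h3⟩ := h
  apply rhoV_inj
  intro v
  rw [rhoV_prod l (fun n hn => of_decide_eq_true (h1 n hn)),
    rhoV_prod l' (fun n hn => of_decide_eq_true (h2 n hn)), of_decide_eq_true h3]

end H77T2
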