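import Pool.Agent.Helper77.T2.Q6

/-!
# T2: vectors and 6x6 matrices over `ℚ(√6)` (for kernel computations)
-/

namespace H77T2

/-- a vector of length 6 -/
@[ext] structure V6 where
  c0 : Q6
  c1 : Q6
  c2 : Q6
  c3 : Q6
  c4 : Q6
  c5 : Q6
  deriving DecidableEq

/-- a 6x6 matrix, given by its rows -/
@[ext] structure M6 where
  r0 : V6
  r1 : V6
  r2 : V6
  r3 : V6
  r4 : V6
  r5 : V6
  deriving DecidableEq

namespace V6

def add (x y : V6) : V6 :=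
  ⟨x.c0 + y.c0, x.c1 + y.c1, x.c2 + y.c2, x.c3 + y.c3, x.c4 + y.c4, x.c5 + y.c5⟩
def sub (x y : V6) : V6 :=
  ⟨x.c0 - y.c0, x.c1 - y.c1, x.c2 - y.c2, x.c3 - y.c3, x.c4 - y.c4, x.c5 - y.c5⟩
def smul (r : Q6) (x : V6) : V6 :=
  ⟨r * x.c0, r * x.c1, r * x.c2, r * x.c3, r * x.c4, r * x.c5⟩
def zero : V6 := ⟨0, 0, 0, 0, 0, 0⟩

/-- `r x + y`, skipping zero coefficients -/
def axpy (r : Q6) (x y : V6) : V6 := if r = 0 then y else add (smul r x) y

/-- the real vector -/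
noncomputable def toR (x : V6) : Fin 6 → ℝ :=
  ![Q6.toR x.c0, Q6.toR x.c1, Q6.toR x.c2, Q6.toR x.c3, Q6.toR x.c4, Q6.toR x.c5]

theorem toR_add (x y : V6) : (x.add y).toR = x.toR + y.toR := by
  funext i; fin_cases i <;> simp [toR, add]

theorem toR_sub (x y : V6) : (x.sub y).toR = x.toR - y.toR := by
  funext i; fin_cases i <;> simp [toR, sub]

theorem toR_smul (r : Q6) (x : V6) : (x.smul r).toR = Q6.toR r • x.toR := by
  funext i; fin_cases i <;> simp [toR, smul]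

theorem toR_zero : zero.toR = 0 := by
  funext i; fin_cases i <;> simp [toR, zero]

theorem toR_axpy (r : Q6) (x y : V6) : (axpy r x y).toR = Q6.toR r • x.toR + y.toR := by
  unfold axpy
  split_ifs with h
  · rw [h, map_zero, zero_smul, zero_add]
  · rw [toR_add, toR_smul]

theorem toR_injective : Function.Injective toR := by
  intro x y h
  ext1
  · exact Q6.toR_injective (congrFun h 0)
  · exact Q6.toR_injective (congrFun h 1)
  · exact Q6.toR_injective (congrFun h 2)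
  · exact Q6.toR_injective (congrFun h 3)
  · exact Q6.toR_injective (congrFun h 4)
  · exact Q6.toR_injective (congrFun h 5)

/-- the form `B6`. -/
def B (v w : V6) : Q6 :=
  v.c0 * w.c0 - 5 * (v.c1 * w.c1) - ⟨0, 3⟩ *
    (2 * (v.c2 * w.c2 + v.c3 * w.c3 + v.c4 * w.c4 + v.c5 * w.c5) -
      ⟨1 / 2, 0⟩ * (v.c2 * (w.c3 + w.c4 + w.c5) + v.c3 * (w.c2 + w.c4 + w.c5) +
        v.c4 * (w.c2 + w.c3 + w.c5) + v.c5 * (w.c2 + w.c3 + w.c4)))

theorem toR_B (v w : V6) : Q6.toR (B v w) = B6 v.toR w.toR := by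
  unfold B B6
  simp only [map_sub, map_mul, map_add, Q6.toR_s54, map_ofNat]
  have h : Q6.toR ⟨1 / 2, 0⟩ = 1 / 2 := by rw [Q6.toR_mk]; norm_num
  rw [h]
  simp only [toR, Matrix.cons_val_zero, Matrix.cons_val_one, Matrix.cons_val]
  ring

/-- dot product -/
def dot (x y : V6) : Q6 :=
  x.c0 * y.c0 + x.c1 * y.c1 + x.c2 * y.c2 + x.c3 * y.c3 + x.c4 * y.c4 + x.c5 * y.c5

theorem toR_dot (x y : V6) : Q6.toR (dot x y) = ∑ i, x.toR i * y.toR i := by
  simp [dot, toR, Fin.sum_univ_six]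

end V6

namespace M6

/-- the real matrix -/
noncomputable def toR (A : M6) : Matrix (Fin 6) (Fin 6) ℝ :=
  ![A.r0.toR, A.r1.toR, A.r2.toR, A.r3.toR, A.r4.toR, A.r5.toR]

/-- row vector times matrix -/
def vecMul (x : V6) (B : M6) : V6 :=
  V6.axpy x.c0 B.r0 (V6.axpy x.c1 B.r1 (V6.axpy x.c2 B.r2 (V6.axpy x.c3 B.r3
    (V6.axpy x.c4 B.r4 (V6.axpy x.c5 B.r5 V6.zero)))))

def mul (A B : M6) : M6 :=
  ⟨vecMul A.r0 B, vecMul A.r1 B, vecMul A.r2 B, vecMul A.r3 B, vecMul A.r4 B, vecMul A.r5 B⟩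

def mulVec (A : M6) (v : V6) : V6 :=
  ⟨A.r0.dot v, A.r1.dot v, A.r2.dot v, A.r3.dot v, A.r4.dot v, A.r5.dot v⟩

def one : M6 :=
  ⟨⟨1, 0, 0, 0, 0, 0⟩, ⟨0, 1, 0, 0, 0, 0⟩, ⟨0, 0, 1, 0, 0, 0⟩, ⟨0, 0, 0, 1, 0, 0⟩,
    ⟨0, 0, 0, 0, 1, 0⟩, ⟨0, 0, 0, 0, 0, 1⟩⟩

theorem toR_vecMul (x : V6) (B : M6) : (vecMul x B).toR = Matrix.vecMul x.toR B.toR := by
  simp only [vecMul, V6.toR_axpy, V6.toR_zero, add_zero]
  funext j
  simp only [Matrix.vecMul, dotProduct, Fin.sum_univ_six, Pi.add_apply, Pi.smul_apply,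
    smul_eq_mul]
  simp only [toR, V6.toR, Matrix.cons_val_zero, Matrix.cons_val_one, Matrix.cons_val, add_assoc]

theorem toR_mul (A B : M6) : (mul A B).toR = A.toR * B.toR := by
  have h : ∀ (x : V6) (i : Fin 6), A.toR i = x.toR → (A.toR * B.toR) i = (vecMul x B).toR := by
    intro x i hi
    rw [toR_vecMul, ← hi]
    rfl
  funext i
  fin_cases i
  · exact (h A.r0 0 rfl).symm
  · exact (h A.r1 1 rfl).symm
  · exact (h A.r2 2 rfl).symm
  · exact (h A.r3 3 rfl).symm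
  · exact (h A.r4 4 rfl).symm
  · exact (h A.r5 5 rfl).symm

theorem toR_mulVec (A : M6) (v : V6) : (mulVec A v).toR = A.toR.mulVec v.toR := by
  funext i
  fin_cases i
  · exact V6.toR_dot A.r0 v
  · exact V6.toR_dot A.r1 v
  · exact V6.toR_dot A.r2 v
  · exact V6.toR_dot A.r3 v
  · exact V6.toR_dot A.r4 v
  · exact V6.toR_dot A.r5 v

theorem toR_one : one.toR = 1 := by
  funext i j
  fin_cases i <;> fin_cases j <;> simp [toR, one, V6.toR]

end M6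

/-- decoding of one number from a table: digits of `b` bits, offset `o`. -/
def dg (N b i : ℕ) : ℕ := (N >>> (b * i)) % 2 ^ b

/-- entry `(a + b √6)/30`, from two digits of 9 bits with offset 256. -/
def q6at (N i : ℕ) : Q6 :=
  ⟨(((dg N 9 (2 * i) : ℕ) : ℤ) - 256 : ℤ) / 30, (((dg N 9 (2 * i + 1) : ℕ) : ℤ) - 256 : ℤ) / 30⟩

def v6at (N i : ℕ) : V6 :=
  ⟨q6at N (6 * i), q6at N (6 * i + 1), q6at N (6 * i + 2), q6at N (6 * i + 3),
    q6at N (6 * i + 4), q6at N (6 * i + 5)⟩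

def m6at (N i : ℕ) : M6 :=
  ⟨v6at N (6 * i), v6at N (6 * i + 1), v6at N (6 * i + 2), v6at N (6 * i + 3),
    v6at N (6 * i + 4), v6at N (6 * i + 5)⟩

end H77T2
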