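import Pool.Agent.Helper77.T2.RealA

/-!
# T2: exact computations over `ℚ(√6)`
-/

namespace H77T2

/-- `a + b √6` -/
@[ext] structure Q6 where
  a : ℚ
  b : ℚ
  deriving DecidableEq

namespace Q6

def add (x y : Q6) : Q6 := ⟨x.a + y.a, x.b + y.b⟩
def mul (x y : Q6) : Q6 := ⟨x.a * y.a + 6 * (x.b * y.b), x.a * y.b + x.b * y.a⟩

instance : Zero Q6 := ⟨⟨0, 0⟩⟩
instance : One Q6 := ⟨⟨1, 0⟩⟩
instance : Add Q6 := ⟨add⟩
instance : Mul Q6 := ⟨mul⟩
instance : Neg Q6 := ⟨fun x => ⟨-x.a, -x.b⟩⟩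
instance : Sub Q6 := ⟨fun x y => ⟨x.a - y.a, x.b - y.b⟩⟩
instance : SMul ℕ Q6 := ⟨fun n p => ⟨n • p.a, n • p.b⟩⟩
instance : SMul ℤ Q6 := ⟨fun n p => ⟨n • p.a, n • p.b⟩⟩
instance : NatCast Q6 := ⟨fun n => ⟨n, 0⟩⟩
instance : IntCast Q6 := ⟨fun n => ⟨n, 0⟩⟩

@[simp] theorem zero_a : (0 : Q6).a = 0 := rfl
@[simp] theorem zero_b : (0 : Q6).b = 0 := rfl
@[simp] theorem one_a : (1 : Q6).a = 1 := rfl
@[simp] theorem one_b : (1 : Q6).b = 0 := rfl
@[simp] theorem add_a (x y : Q6) : (x + y).a = x.a + y.a := rfl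
@[simp] theorem add_b (x y : Q6) : (x + y).b = x.b + y.b := rfl
@[simp] theorem neg_a (x : Q6) : (-x).a = -x.a := rfl
@[simp] theorem neg_b (x : Q6) : (-x).b = -x.b := rfl
@[simp] theorem sub_a (x y : Q6) : (x - y).a = x.a - y.a := rfl
@[simp] theorem sub_b (x y : Q6) : (x - y).b = x.b - y.b := rfl
@[simp] theorem mul_a (x y : Q6) : (x * y).a = x.a * y.a + 6 * (x.b * y.b) := rfl
@[simp] theorem mul_b (x y : Q6) : (x * y).b = x.a * y.b + x.b * y.a := rfl
@[simp] theorem natCast_a (n : ℕ) : (n : Q6).a = n := rfl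
@[simp] theorem natCast_b (n : ℕ) : (n : Q6).b = 0 := rfl
@[simp] theorem intCast_a (n : ℤ) : (n : Q6).a = n := rfl
@[simp] theorem intCast_b (n : ℤ) : (n : Q6).b = 0 := rfl

instance : CommRing Q6 where
  add_assoc a b c := by ext <;> simp <;> ring
  zero_add a := by ext <;> simp
  add_zero a := by ext <;> simp
  add_comm a b := by ext <;> simp <;> ring
  neg_add_cancel a := by ext <;> simp
  sub_eq_add_neg a b := by ext <;> simp <;> ring
  nsmul n p := n • p
  nsmul_zero p := by ext <;> exact AddMonoid.nsmul_zero _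
  nsmul_succ n p := by ext <;> exact AddMonoid.nsmul_succ n _
  zsmul n p := n • p
  zsmul_zero' p := by ext <;> exact SubNegMonoid.zsmul_zero' _
  zsmul_succ' n p := by
    ext <;> exact SubNegMonoid.zsmul_succ' n _
  zsmul_neg' n p := by
    ext <;> exact SubNegMonoid.zsmul_neg' n _
  left_distrib a b c := by ext <;> simp <;> ring
  right_distrib a b c := by ext <;> simp <;> ring
  zero_mul a := by ext <;> simp
  mul_zero a := by ext <;> simp
  mul_assoc a b c := by ext <;> simp <;> ring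
  one_mul a := by ext <;> simp
  mul_one a := by ext <;> simp
  mul_comm a b := by ext <;> simp <;> ring
  natCast n := (n : Q6)
  natCast_zero := by ext <;> simp
  natCast_succ n := by ext <;> simp
  intCast n := (n : Q6)
  intCast_ofNat n := by ext <;> simp
  intCast_negSucc n := by ext <;> simp

theorem sqrt6_sq : Real.sqrt 6 * Real.sqrt 6 = 6 := Real.mul_self_sqrt (by norm_num)

theorem sqrt6_pos : 0 < Real.sqrt 6 := Real.sqrt_pos.2 (by norm_num)

/-- the real value. -/
noncomputable def toR : Q6 →+* ℝ where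
  toFun x := x.a + x.b * Real.sqrt 6
  map_one' := by simp
  map_mul' x y := by
    simp only [mul_a, mul_b, Rat.cast_add, Rat.cast_mul, Rat.cast_ofNat]
    linear_combination -((x.b : ℝ) * y.b) * sqrt6_sq
  map_zero' := by simp
  map_add' x y := by
    simp only [add_a, add_b, Rat.cast_add]
    ring

theorem toR_apply (x : Q6) : toR x = x.a + x.b * Real.sqrt 6 := rfl

theorem toR_mk (a b : ℚ) : toR ⟨a, b⟩ = a + b * Real.sqrt 6 := rfl

/-- decision of nonnegativity -/
def nn (x : Q6) : Bool :=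
  if 0 ≤ x.a then (if 0 ≤ x.b then true else decide (6 * (x.b * x.b) ≤ x.a * x.a))
  else (if 0 ≤ x.b then decide (x.a * x.a ≤ 6 * (x.b * x.b)) else false)

theorem nonneg_of_nn {x : Q6} (h : x.nn = true) : 0 ≤ toR x := by
  rw [toR_apply]
  have h6 := sqrt6_sq
  have h6' := sqrt6_pos
  unfold nn at h
  split_ifs at h with h1 h2 h2
  · have h1' : (0 : ℝ) ≤ x.a := by exact_mod_cast h1
    have h2' : (0 : ℝ) ≤ x.b := by exact_mod_cast h2
    positivity
  · have h1' : (0 : ℝ) ≤ x.a := by exact_mod_cast h1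
    have h2' : (x.b : ℝ) < 0 := by exact_mod_cast not_le.1 h2
    have h3 : 6 * ((x.b : ℝ) * x.b) ≤ x.a * x.a := by exact_mod_cast of_decide_eq_true h
    have h4 : -(x.b : ℝ) * Real.sqrt 6 ≤ x.a := by
      apply abs_le_of_sq_le_sq' _ h1' |>.2
      have : (-(x.b : ℝ) * Real.sqrt 6) ^ 2 = 6 * ((x.b : ℝ) * x.b) := by
        rw [mul_pow, sq (Real.sqrt 6), h6]; ring
      rw [this]; linarith
    linarith
  · have h1' : (x.a : ℝ) < 0 := by exact_mod_cast not_le.1 h1
    have h2' : (0 : ℝ) ≤ x.b := by exact_mod_cast h2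
    have h3 : (x.a : ℝ) * x.a ≤ 6 * ((x.b : ℝ) * x.b) := by exact_mod_cast of_decide_eq_true h
    have h4 : -(x.a : ℝ) ≤ x.b * Real.sqrt 6 := by
      apply abs_le_of_sq_le_sq' _ (by positivity) |>.2
      have : ((x.b : ℝ) * Real.sqrt 6) ^ 2 = 6 * ((x.b : ℝ) * x.b) := by
        rw [mul_pow, sq (Real.sqrt 6), h6]; ring
      rw [this]; linarith
    linarith
  all_goals simp at h

theorem toR_injective : Function.Injective toR := by
  have hirr : ∀ c d : ℚ, (c : ℝ) + d * Real.sqrt 6 = 0 → c = 0 ∧ d = 0 := by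
    intro c d h
    by_cases hd : d = 0
    · subst hd
      simp at h
      exact ⟨h, rfl⟩
    · exfalso
      have h1 : Real.sqrt 6 = ((-c / d : ℚ) : ℝ) := by
        have hd' : (d : ℝ) ≠ 0 := by exact_mod_cast hd
        push_cast
        field_simp
        linarith
      have h2 : ((-c / d : ℚ) : ℝ) * ((-c / d : ℚ) : ℝ) = 6 := by rw [← h1, sqrt6_sq]
      have h3 : (-c / d : ℚ) * (-c / d) = 6 := by exact_mod_cast h2
      have h4 : IsSquare (6 : ℚ) := ⟨-c / d, h3.symm⟩
      rw [Rat.isSquare_iff] at h4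
      have h5 : IsSquare (6 : ℤ) := h4.1
      obtain ⟨r, hr⟩ := h5
      have h6 : r < 3 := by nlinarith
      have h7 : -3 < r := by nlinarith
      interval_cases r <;> omega
  intro x y h
  have h1 : toR (x - y) = 0 := by rw [map_sub, h, sub_self]
  rw [toR_apply] at h1
  obtain ⟨h2, h3⟩ := hirr _ _ h1
  ext
  · exact sub_eq_zero.1 h2
  · exact sub_eq_zero.1 h3

/-- decision of positivity -/
def ps (x : Q6) : Bool := x.nn && !(decide (x = 0))

theorem pos_of_ps {x : Q6} (h : x.ps = true) : 0 < toR x := by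
  unfold ps at h
  rw [Bool.and_eq_true] at h
  refine lt_of_le_of_ne (nonneg_of_nn h.1) fun h0 => ?_
  have h2 : x = 0 := toR_injective (by rw [map_zero, ← h0])
  simp [h2] at h

theorem s54_eq : s54 = 3 * Real.sqrt 6 := by
  unfold s54
  rw [show (54 : ℝ) = 3 ^ 2 * 6 by norm_num, Real.sqrt_mul (by norm_num),
    Real.sqrt_sq (by norm_num)]

theorem toR_s54 : toR ⟨0, 3⟩ = s54 := by
  rw [toR_mk, s54_eq]; push_cast; ring

end Q6

end H77T2
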