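import Pool.Agent.Helper77.T2.Lin

/-!
# T2: combinatorics of the 52 walls
-/

namespace H77T2

def qmulN (a b : ℕ) : ℕ := ((a / 4 + 2 ^ (a % 4) * (b / 4)) % 5) * 4 + (a + b) % 4

def qinvN (a : ℕ) : ℕ := (((5 - a / 4) * 2 ^ ((4 - a % 4) % 4)) % 5) * 4 + (4 - a % 4) % 4

/-- the group of order 20, `z^i x^j` is `4 i + j` -/
structure Q20 where
  v : Fin 20
  deriving DecidableEq, Fintype

namespace Q20

instance : Mul Q20 := ⟨fun a b => ⟨Fin.ofNat 20 (qmulN a.v b.v)⟩⟩
instance : One Q20 := ⟨⟨0⟩⟩
instance : Inv Q20 := ⟨fun a => ⟨Fin.ofNat 20 (qinvN a.v)⟩⟩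

theorem assoc' (a b c : Q20) : a * b * c = a * (b * c) := by
  revert a b c; decide +kernel

theorem one_mul' (a : Q20) : 1 * a = a := by
  revert a; decide +kernel

theorem inv_mul' (a : Q20) : a⁻¹ * a = 1 := by
  revert a; decide +kernel

instance : Group Q20 := Group.ofLeftAxioms assoc' one_mul' inv_mul'

/-- the generators -/
def z : Q20 := ⟨4⟩
def x : Q20 := ⟨1⟩

/-- induction along the generators -/
theorem gen_induction {p : Q20 → Prop} (h1 : p 1) (hz : ∀ a, p a → p (z * a))
    (hx : ∀ a, p a → p (x * a)) : ∀ a, p a := by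
  have key : ∀ a : Q20, ∃ i : Fin 5, ∃ j : Fin 4, a = z ^ (i : ℕ) * x ^ (j : ℕ) := by
    decide +kernel
  have hxp : ∀ j : ℕ, p (x ^ j) := by
    intro j
    induction j with
    | zero => rw [pow_zero]; exact h1
    | succ j ih => rw [pow_succ']; exact hx _ ih
  have hzp : ∀ i : ℕ, ∀ a, p a → p (z ^ i * a) := by
    intro i
    induction i with
    | zero => intro a ha; rw [pow_zero, one_mul]; exact ha
    | succ i ih => intro a ha; rw [pow_succ', mul_assoc]; exact hz _ (ih a ha)
  intro a
  obtain ⟨i, j, rfl⟩ := key a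
  exact hzp _ _ (hxp _)

/-- a map which is multiplicative on the generators is a homomorphism -/
def homOf {E : Type*} [Group E] (f : Q20 → E) (h1 : f 1 = 1) (hz : ∀ a, f (z * a) = f z * f a)
    (hx : ∀ a, f (x * a) = f x * f a) : Q20 →* E where
  toFun := f
  map_one' := h1
  map_mul' := by
    intro a b
    revert a
    apply gen_induction
    · rw [one_mul, h1, one_mul]
    · intro a ha; rw [mul_assoc, hz, ha, hz, mul_assoc]
    · intro a ha; rw [mul_assoc, hx, ha, hx, mul_assoc]

end Q20

def wmN : ℕ := 0x9249249249249246db6db6d2492492249249240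
def wuN : ℕ := 0x9ca307b9ac5a928398a4188208c1ac4a0a40818941ca4188207ad073106208020
def actN : ℕ := 0x9a5927badb2f8a1823aa9a2bcb1c3361971d59769b79f44c3d04cd55239418414220a24b1c30018608e29649e6a68aeab6cbeec70cf25d66586da75c7de30d40f45348e51514808a1062c70c9040a2baa98238a1b2fbad9279a5c33cb169b59771d61979f3533d03113945520842862051c324b001beeb6caeaa689e69648e2860cf2c7075c6da6585d67de4d140f34c51548e2881851020c92c70408a1823aa9a2bcb1c339a5927badb2f59769b79f61971d34e50c4124cf5510890c714818a10b001c70cf28608e29649e6a68aeab6cbee7de5d66586da75c3923143503d54530c51c82422842c60409279a5c33cb1a2baa98238a1b2fbad61979f69b59771d49050c38d5514cf1c920214310b18a001aeaa689e69648e2860cf2c70beeb6c6da6585d67de75c40d31448e4533d52050832472c6284040cb1c339a5927badb2f8a1823aa9a2b79f61971d59769b49544e30f4144cd1c62c40c508824a001b6cbeec70cf28608e29649e6a68aea75c7de5d66586da54f39148c5133502c31051872092820408238a1b2fbad9279a5c33cb1a2baa959771d61979f69b3cc44e5524cd4141061470cb24a0880019e69648e2860cf2c70beeb6caeaa686585d67de75c6da3123913d53505131431cb184282209040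badb2f8a1823aa9a2bcb1c339a592771d59769b79f6193d33553943114121022892c31c5188001a68aeab6cbeec70cf28608e29649e66da75c7de5d66584d454d3ce45048c28b243084146207040c33cb1a2baa98238a1b2fbad9279a579f69b59771d61950e3554cf4123112420c42ca1881c50018e2860cf2c70beeb6caeaa689e69645d67de75c6da65838f54d51348c4500cb10a089207146040aa9a2bcb1c339a5927badb2f8a182369b79f61971d59751049355138d30f24720628b1030850019649e6a68aeab6cbeec70cf28608e26586da75c7de5d64114d251534c3ce20a18b1c90c2144040b2fbad9279a5c33cb1a2baa98238a171d61979f69b59745549341430f38d1872c9288085103001cf2c70beeb6caeaa689e69648e28607de75c6da6585d65544d24503ce34c2ca2481c61440c2040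
def sactN : ℕ := 0x80200802008c001806318c65000a5014a52a0a00000000000000000000000001084210842108c6318c6318c65294a5294a529520000000000000000000000000100401004010006300c0318c6029400294a52a48000000000000000000000000000000000000000000000318c6000000014a5291000000000000000000000000000080200802008c63180031806529405014a501920000000000000000000000000108421084210800300c6300c60280a0294a02a4e00000000000000000000000001004010040100c600000018c65014000140529d00000000000000000000000000000000000000000018c6318c00000a5280a52a0c00000000000000000000000000080200802008003000030006028000014a0010600000000000000000000000001084210842108c000006000c65000a00140028ca00000000000000000000000001004010040100c6018c6018c05014a52800529440000000000000000000000000000000000000006318c031800029405280a500880000000000000000000000000008020080200800318c6300000280a5280a0008e00000000000000000000000001084210842108c630000000065294000140001c60000000000000000000000000100401004010000000c6000c00000a02800028cc00000000000000000000000000000000000000c6018000180050140500005018400000000000000000000000000080200802008c001806000005000a500000000200000000000000000000000001084210842108c6318c6000005294a52800000420000000000000000000000000100401004010006300c00000002940028000004000000000000000000000000000000000000000000000000000000000000000000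
def stpN : ℕ := 0xfffffffffffffffffffffffe0fffffffffffffffffffffbbe0ffffffffffffffff8bfffffe0fffffffffffcbffffffffffe0f9bf0f8becfcbe8fbbe4fabe0

/-- the orbit of the wall -/
def wm (w : Fin 52) : Fin 5 := Fin.ofNat 5 (dg wmN 3 w)
/-- the element of `Q20` that moves the representative to the wall -/
def wu (w : Fin 52) : Q20 := ⟨Fin.ofNat 20 (dg wuN 5 w)⟩
/-- the action on the walls -/
def act (u : Q20) (w : Fin 52) : Fin 52 := Fin.ofNat 52 (dg actN 6 (52 * u.v + w))
/-- the stabiliser part -/
def sact (u : Q20) (w : Fin 52) : Q20 := ⟨Fin.ofNat 20 (dg sactN 5 (52 * u.v + w))⟩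
/-- `s` fixes the wall `m` -/
def stOK (m : Fin 5) (s : Q20) : Bool := dg stpN 5 (20 * m + s.v) != 31
/-- `s k_m = k_m (stp m s)` -/
def stp (m : Fin 5) (s : Q20) : Q20 := ⟨Fin.ofNat 20 (dg stpN 5 (20 * m + s.v))⟩
/-- `k_m⁻¹ = K_{iw m} (iv m)` -/
def iw : Fin 5 → Fin 52 := ![1, 3, 22, 16, 42]
def iv : Fin 5 → Q20 := ![⟨12⟩, ⟨12⟩, ⟨4⟩, ⟨4⟩, ⟨0⟩]
/-- representatives of the orbits of walls -/
def wrep : Fin 5 → Fin 52 := ![0, 2, 12, 22, 32]

theorem comb : ∀ u w, wm (act u w) = wm w ∧ u * wu w = wu (act u w) * sact u w ∧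
    stOK (wm w) (sact u w) = true := by
  decide +kernel

theorem comb_rep : ∀ m, wm (wrep m) = m ∧ wu (wrep m) = 1 := by
  decide +kernel

/-- The relations between the side pairings. -/
structure Setup (E : Type*) [Group E] where
  q : Q20 →* E
  k : Fin 5 → E
  st_rel : ∀ m s, stOK m s = true → q s * k m = k m * q (stp m s)
  inv_rel : ∀ m, k m * (q (wu (iw m)) * k (wm (iw m)) * (q (wu (iw m)))⁻¹) * q (iv m) = 1

namespace Setup

variable {E : Type*} [Group E] (S : Setup E)

/-- the side pairings -/
def K (w : Fin 52) : E := S.q (wu w) * S.k (wm w) * (S.q (wu w))⁻¹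

theorem K_rep (m : Fin 5) : S.K (wrep m) = S.k m := by
  unfold K
  rw [(comb_rep m).1, (comb_rep m).2, map_one, one_mul, inv_one, mul_one]

/-- the right factor -/
def vact (u : Q20) (w : Fin 52) : Q20 := wu (act u w) * stp (wm w) (sact u w) * (wu w)⁻¹

theorem eqv (u : Q20) (w : Fin 52) : S.q u * S.K w = S.K (act u w) * S.q (vact u w) := by
  obtain ⟨h1, h2, h3⟩ := comb u w
  unfold K vact
  rw [h1]
  have h4 := S.st_rel (wm w) (sact u w) h3
  have h5 : S.q u * S.q (wu w) = S.q (wu (act u w)) * S.q (sact u w) := by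
    rw [← map_mul, h2, map_mul]
  calc S.q u * (S.q (wu w) * S.k (wm w) * (S.q (wu w))⁻¹)
      = (S.q u * S.q (wu w)) * S.k (wm w) * (S.q (wu w))⁻¹ := by group
    _ = S.q (wu (act u w)) * (S.q (sact u w) * S.k (wm w)) * (S.q (wu w))⁻¹ := by
        rw [h5]; group
    _ = S.q (wu (act u w)) * (S.k (wm w) * S.q (stp (wm w) (sact u w))) * (S.q (wu w))⁻¹ := by
        rw [h4]
    _ = _ := by simp only [map_mul, map_inv]; group

/-- the inverse wall -/
def invW (w : Fin 52) : Fin 52 := act (wu w) (iw (wm w))

/-- the right factor of the inverse -/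
def invV (w : Fin 52) : Q20 := vact (wu w) (iw (wm w)) * iv (wm w) * (wu w)⁻¹

theorem sym (w : Fin 52) : (S.K w)⁻¹ = S.K (invW w) * S.q (invV w) := by
  have h1 := S.inv_rel (wm w)
  have h2 : (S.k (wm w))⁻¹ = S.K (iw (wm w)) * S.q (iv (wm w)) := by
    rw [inv_eq_iff_mul_eq_one, ← mul_assoc]
    exact h1
  have h3 : (S.K w)⁻¹ = S.q (wu w) * (S.k (wm w))⁻¹ * (S.q (wu w))⁻¹ := by
    unfold K; group
  rw [h3, h2, ← mul_assoc, S.eqv, invW, invV]
  simp only [map_mul, map_inv]
  group

/-- images under homomorphisms -/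
def map {E' : Type*} [Group E'] (f : E →* E') : Setup E' where
  q := f.comp S.q
  k := fun m => f (S.k m)
  st_rel := by
    intro m s h
    have := congrArg f (S.st_rel m s h)
    simpa using this
  inv_rel := by
    intro m
    have := congrArg f (S.inv_rel m)
    simpa using this

/-- products -/
def prod {E' : Type*} [Group E'] (S' : Setup E') : Setup (E × E') where
  q := S.q.prod S'.q
  k := fun m => (S.k m, S'.k m)
  st_rel := fun m s h => Prod.ext (S.st_rel m s h) (S'.st_rel m s h)
  inv_rel := fun m => Prod.ext (S.inv_rel m) (S'.inv_rel m)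

theorem prod_K {E' : Type*} [Group E'] (S' : Setup E') (w : Fin 52) :
    (S.prod S').K w = (S.K w, S'.K w) := rfl

end Setup

end H77T2
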